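import Mathlib

open Finset

namespace Pool.Agent.R440.TP

/-- Muntz approximation with von Golitschek's product bound. -/
theorem muntz_poly (q : ℕ) (hq : 1 ≤ q) (Λ : Finset ℕ) (h1 : ∀ l ∈ Λ, 1 ≤ l) (hqΛ : q ∉ Λ) :
    ∃ a : ℕ → ℝ, ∀ x ∈ Set.Icc (0:ℝ) 1,
      |x ^ q - ∑ l ∈ Λ, a l * x ^ l| ≤ ∏ l ∈ Λ, |1 - (q:ℝ) / l| := by
  induction Λ using Finset.induction_on with
  | empty =>
    refine ⟨0, fun x hx => ?_⟩
    simp only [sum_empty, sub_zero, prod_empty]
    rw [abs_of_nonneg (pow_nonneg hx.1 _)]
    exact pow_le_one₀ hx.1 hx.2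
  | insert l Λ hl ih =>
    obtain ⟨a, ha⟩ := ih (fun m hm => h1 m (mem_insert_of_mem hm))
      (fun h => hqΛ (mem_insert_of_mem h))
    have hl1 : 1 ≤ l := h1 l (mem_insert_self _ _)
    have hl0 : (0:ℝ) < l := by exact_mod_cast hl1
    obtain ⟨b, hb⟩ : ∃ b : ℕ → ℝ, ∀ m ∈ Λ, b m * ((m:ℝ) - l) = a m * ((q:ℝ) - l) := by
      refine ⟨fun m => a m * ((q:ℝ) - l) / ((m:ℝ) - l), fun m hm => ?_⟩
      have : ((m:ℝ) - l) ≠ 0 := by
        intro h
        have : (m:ℝ) = l := by linarith
        have : m = l := by exact_mod_cast this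
        exact hl (this ▸ hm)
      simp only
      field_simp
    set c : ℝ := 1 - ∑ m ∈ Λ, b m with hc
    refine ⟨fun m => if m = l then c else b m, fun x hx => ?_⟩
    have hsum : ∀ x : ℝ, ∑ m ∈ insert l Λ, (if m = l then c else b m) * x ^ m =
        c * x ^ l + ∑ m ∈ Λ, b m * x ^ m := by
      intro x
      rw [sum_insert hl, if_pos rfl]
      congr 1
      apply sum_congr rfl
      intro m hm
      rw [if_neg (by rintro rfl; exact hl hm)]
    rw [hsum]
    set Q : ℝ → ℝ := fun x => x ^ q - (c * x ^ l + ∑ m ∈ Λ, b m * x ^ m) with hQ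
    have hQ0 : Q 0 = 0 := by
      simp only [hQ]
      rw [zero_pow (by omega), zero_pow (by omega), sum_eq_zero]
      · simp
      · intro m hm
        have := h1 m (mem_insert_of_mem hm)
        rw [zero_pow (by omega), mul_zero]
    have hQ1 : Q 1 = 0 := by
      simp only [hQ, one_pow, mul_one, hc]
      ring
    have hQd : ∀ x, HasDerivAt Q ((q:ℝ) * x ^ (q-1) - (c * ((l:ℝ) * x ^ (l-1)) +
        ∑ m ∈ Λ, b m * ((m:ℝ) * x ^ (m-1)))) x := by
      intro x
      have hs : HasDerivAt (fun x : ℝ => ∑ m ∈ Λ, b m * x ^ m)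
          (∑ m ∈ Λ, b m * ((m:ℝ) * x ^ (m-1))) x := by
        apply HasDerivAt.fun_sum
        intro m _
        exact (hasDerivAt_pow m x).const_mul (b m)
      exact (hasDerivAt_pow q x).sub (((hasDerivAt_pow l x).const_mul c).add hs)
    have hpw : ∀ (m : ℕ) (x : ℝ), 1 ≤ m → x * ((m:ℝ) * x ^ (m-1)) = m * x ^ m := by
      intro m x hm
      obtain ⟨k, rfl⟩ : ∃ k, m = k + 1 := ⟨m-1, by omega⟩
      simp only [Nat.add_sub_cancel, pow_succ]
      ring
    have hrel : ∀ x, x * ((q:ℝ) * x ^ (q-1) - (c * ((l:ℝ) * x ^ (l-1)) +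
        ∑ m ∈ Λ, b m * ((m:ℝ) * x ^ (m-1)))) - l * Q x =
        ((q:ℝ) - l) * (x ^ q - ∑ m ∈ Λ, a m * x ^ m) := by
      intro x
      simp only [hQ]
      have e1 : x * ∑ m ∈ Λ, b m * ((m:ℝ) * x ^ (m-1)) = ∑ m ∈ Λ, b m * (m * x ^ m) := by
        rw [mul_sum]
        apply sum_congr rfl
        intro m hm
        have := hpw m x (h1 m (mem_insert_of_mem hm))
        linear_combination b m * this
      have e2 : ((q:ℝ) - l) * ∑ m ∈ Λ, a m * x ^ m =
          ∑ m ∈ Λ, b m * (m * x ^ m) - l * ∑ m ∈ Λ, b m * x ^ m := by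
        rw [mul_sum, mul_sum, ← sum_sub_distrib]
        apply sum_congr rfl
        intro m hm
        linear_combination -(x ^ m) * hb m hm
      have e3 := hpw q x hq
      have e4 := hpw l x hl1
      linear_combination e3 - c * e4 - e1 + e2
    -- maximum of Q^2
    have hcont : Continuous Q := by
      rw [continuous_iff_continuousAt]
      exact fun x => (hQd x).continuousAt
    obtain ⟨x0, hx0, hmax⟩ := (isCompact_Icc (a := (0:ℝ)) (b := 1)).exists_isMaxOn
      ⟨0, by simp⟩ (f := fun x => (Q x) ^ 2) (by fun_prop)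
    have hbound : |Q x0| ≤ ∏ l ∈ insert l Λ, |1 - (q:ℝ) / l| := by
      have hpos : 0 ≤ ∏ l ∈ insert l Λ, |1 - (q:ℝ) / l| := prod_nonneg fun _ _ => abs_nonneg _
      by_cases h0 : x0 = 0
      · rw [h0, hQ0, abs_zero]; exact hpos
      by_cases h1' : x0 = 1
      · rw [h1', hQ1, abs_zero]; exact hpos
      have hI : x0 ∈ Set.Ioo (0:ℝ) 1 :=
        ⟨lt_of_le_of_ne hx0.1 (Ne.symm h0), lt_of_le_of_ne hx0.2 h1'⟩
      have hloc : IsLocalMax (fun x => (Q x) ^ 2) x0 := by
        apply hmax.isLocalMax
        exact Icc_mem_nhds hI.1 hI.2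
      have hd := (hQd x0).pow 2
      have hz := hloc.hasDerivAt_eq_zero hd
      simp only [Nat.cast_ofNat, Nat.add_one_sub_one, pow_one] at hz
      by_cases hQx : Q x0 = 0
      · rw [hQx, abs_zero]; exact hpos
      have hz2 : (q:ℝ) * x0 ^ (q-1) - (c * ((l:ℝ) * x0 ^ (l-1)) +
        ∑ m ∈ Λ, b m * ((m:ℝ) * x0 ^ (m-1))) = 0 := by
        rcases mul_eq_zero.1 hz with h | h
        · exfalso; apply hQx; simpa using h
        · exact h
      have h3 := hrel x0
      rw [hz2, mul_zero, zero_sub] at h3
      have h4 : Q x0 = (1 - (q:ℝ) / l) * (x0 ^ q - ∑ m ∈ Λ, a m * x0 ^ m) := by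
        field_simp
        linarith
      rw [h4, abs_mul, prod_insert hl]
      exact mul_le_mul_of_nonneg_left (ha x0 hx0) (abs_nonneg _)
    refine le_trans ?_ hbound
    have := hmax hx
    exact sq_le_sq.1 this

/-- product can be made small if the sum diverges -/
theorem muntz_small (q : ℕ) (S : Set ℕ) (hS : ¬ Summable (fun s : S => (1:ℝ) / (s:ℕ)))
    (ε : ℝ) (hε : 0 < ε) :
    ∃ Λ : Finset ℕ, (∀ l ∈ Λ, l ∈ S ∧ q < l) ∧ ∏ l ∈ Λ, |1 - (q:ℝ) / l| ≤ ε ∨ q = 0 := by
  by_cases hq : q = 0
  · exact ⟨∅, Or.inr hq⟩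
  have hq1 : (1:ℝ) ≤ q := by exact_mod_cast Nat.one_le_iff_ne_zero.2 hq
  classical
  -- indicator function
  set F : ℕ → ℝ := fun s => if s ∈ S ∧ q < s then (1:ℝ) / s else 0 with hF
  have hF0 : ∀ s, 0 ≤ F s := by
    intro s; simp only [hF]; split_ifs <;> positivity
  have hns : ¬ Summable F := by
    intro h
    apply hS
    have h2 : Summable (fun s : ℕ => S.indicator (fun s : ℕ => (1:ℝ) / s) s) := by
      rw [← summable_nat_add_iff (q+1)] at h ⊢
      refine h.congr ?_
      intro s
      simp only [hF, Set.indicator]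
      by_cases hs : s + (q+1) ∈ S
      · rw [if_pos ⟨hs, by omega⟩, if_pos hs]
      · rw [if_neg (fun h => hs h.1), if_neg hs]
    exact (summable_subtype_iff_indicator (f := fun s : ℕ => (1:ℝ) / s)).2 h2
  have htend := not_summable_iff_tendsto_nat_atTop_of_nonneg hF0 |>.1 hns
  obtain ⟨n, hn⟩ := (htend.eventually (Filter.eventually_ge_atTop (-(Real.log ε)))).exists
  refine ⟨(range n).filter (fun s => s ∈ S ∧ q < s), Or.inl ⟨fun l hl => (mem_filter.1 hl).2, ?_⟩⟩
  have hle : ∏ l ∈ (range n).filter (fun s => s ∈ S ∧ q < s), |1 - (q:ℝ) / l| ≤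
      ∏ l ∈ (range n).filter (fun s => s ∈ S ∧ q < s), Real.exp (-(F l)) := by
    apply prod_le_prod
    · intro _ _; exact abs_nonneg _
    · intro l hl
      have h := (mem_filter.1 hl).2
      have hl0 : (0:ℝ) < l := by
        have : 0 < l := by omega
        exact_mod_cast this
      have hql : (q:ℝ) / l ≤ 1 := by
        rw [div_le_one hl0]
        exact_mod_cast h.2.le
      rw [abs_of_nonneg (by linarith)]
      have h5 : F l = 1 / l := by simp only [hF]; rw [if_pos h]
      have h6 := Real.add_one_le_exp (-(F l))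
      have h7 : F l ≤ (q:ℝ) / l := by
        rw [h5]; exact div_le_div_of_nonneg_right hq1 hl0.le
      linarith
  refine hle.trans ?_
  rw [← Real.exp_sum, sum_neg_distrib]
  have hsum : ∑ l ∈ (range n).filter (fun s => s ∈ S ∧ q < s), F l = ∑ l ∈ range n, F l := by
    rw [sum_filter]
    apply sum_congr rfl
    intro l _
    simp only [hF]
    split_ifs <;> rfl
  rw [hsum, ← Real.log_le_log_iff (Real.exp_pos _) hε, Real.log_exp]
  linarith

/-- The `n × n` Hankel matrix of `M` with offset `k` is singular. -/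
def Sing (M : ℕ → ℂ) (n k : ℕ) : Prop :=
  ∃ q : ℕ → ℂ, (∃ j < n, q j ≠ 0) ∧ ∀ i < n, ∑ j ∈ range n, q j * M (k + i + j) = 0

theorem sing_step {M : ℕ → ℂ} {n k : ℕ} (h1 : Sing M (n+1) k) (h2 : Sing M n k) :
    Sing M n (k+1) := by
  obtain ⟨q, ⟨j0, hj0, hq0⟩, hq⟩ := h1
  obtain ⟨y, hy0, hy⟩ := h2
  by_cases hqn : q n = 0
  · refine ⟨q, ⟨j0, ?_, hq0⟩, ?_⟩
    · rcases Nat.lt_succ_iff_lt_or_eq.1 hj0 with h | h
      · exact h
      · exact absurd (h ▸ hqn) hq0
    · intro i hi
      have := hq (i+1) (by omega)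
      rw [sum_range_succ, hqn, zero_mul, add_zero] at this
      rw [← this]
      apply sum_congr rfl
      intro j _
      congr 2
      omega
  · refine ⟨y, hy0, ?_⟩
    intro i hi
    by_cases hin : i + 1 < n
    · have := hy (i+1) hin
      rw [← this]
      apply sum_congr rfl
      intro j _
      congr 2
      omega
    · have hin' : i + 1 = n := by omega
      -- use symmetric property
      have key : q n * ∑ j ∈ range n, y j * M (k + n + j) = 0 := by
        have e1 : ∀ j ∈ range n, q n * (y j * M (k + n + j)) =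
            - (y j * ∑ m ∈ range n, q m * M (k + j + m)) := by
          intro j hj
          have := hq j (by have := mem_range.1 hj; omega)
          rw [sum_range_succ] at this
          have e : k + n + j = k + j + n := by ring
          rw [e]
          linear_combination y j * this
        rw [mul_sum, sum_congr rfl e1, sum_neg_distrib]
        have e2 : ∑ j ∈ range n, y j * ∑ m ∈ range n, q m * M (k + j + m) =
            ∑ m ∈ range n, q m * ∑ j ∈ range n, y j * M (k + m + j) := by
          simp only [mul_sum]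
          rw [sum_comm]
          apply sum_congr rfl
          intro m _
          apply sum_congr rfl
          intro j _
          have : k + j + m = k + m + j := by ring
          rw [this]
          ring
        rw [e2, sum_eq_zero, neg_zero]
        intro m hm
        rw [hy m (mem_range.1 hm), mul_zero]
      have := (mul_eq_zero.1 key).resolve_left hqn
      rw [← this]
      apply sum_congr rfl
      intro j _
      congr 2
      omega

theorem sing_rec {M : ℕ → ℂ} (n : ℕ) : ∀ k0 : ℕ, (∀ k ≥ k0, Sing M n k) →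
    ∃ (q : ℕ → ℂ) (k1 : ℕ), (∃ j < n, q j ≠ 0) ∧
      ∀ k ≥ k1, ∑ j ∈ range n, q j * M (k + j) = 0 := by
  induction n with
  | zero =>
    intro k0 h
    obtain ⟨q, ⟨j, hj, _⟩, _⟩ := h k0 le_rfl
    omega
  | succ n ih =>
    intro k0 h
    by_cases hex : ∃ k1 ≥ k0, Sing M n k1
    · obtain ⟨k1, hk1, hs⟩ := hex
      have hall : ∀ k ≥ k1, Sing M n k := by
        intro k hk
        induction k, hk using Nat.le_induction with
        | base => exact hs
        | succ k hk ihk => exact sing_step (h k (by omega)) ihk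
      obtain ⟨q, k2, ⟨j, hj, hqj⟩, hq⟩ := ih k1 hall
      refine ⟨fun m => if m = n then 0 else q m, k2, ⟨j, by omega, ?_⟩, ?_⟩
      · simp only
        rw [if_neg (by omega)]
        exact hqj
      · intro k hk
        rw [sum_range_succ]
        simp only [if_true, zero_mul, add_zero]
        rw [← hq k hk]
        apply sum_congr rfl
        intro m hm
        have := mem_range.1 hm
        rw [if_neg (by omega)]
    · push Not at hex
      have hnorm : ∀ k ≥ k0, ∃ q : ℕ → ℂ, q n = 1 ∧
          ∀ i < n + 1, ∑ j ∈ range (n+1), q j * M (k + i + j) = 0 := by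
        intro k hk
        obtain ⟨q, ⟨j0, hj0, hq0⟩, hq⟩ := h k hk
        have hqn : q n ≠ 0 := by
          intro hqn
          apply hex k hk
          refine ⟨q, ⟨j0, ?_, hq0⟩, ?_⟩
          · rcases Nat.lt_succ_iff_lt_or_eq.1 hj0 with h | h
            · exact h
            · exact absurd (h ▸ hqn) hq0
          · intro i hi
            have := hq i (by omega)
            rw [sum_range_succ, hqn, zero_mul, add_zero] at this
            exact this
        refine ⟨fun j => q j / q n, div_self hqn, ?_⟩
        intro i hi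
        have := hq i hi
        have e : ∑ j ∈ range (n+1), q j / q n * M (k + i + j) =
            (∑ j ∈ range (n+1), q j * M (k + i + j)) / q n := by
          rw [sum_div]
          apply sum_congr rfl
          intro j _
          ring
        rw [e, this, zero_div]
      choose! Q hQn hQ using hnorm
      have hconst : ∀ k ≥ k0, ∀ j < n + 1, Q k j = Q k0 j := by
        intro k hk
        induction k, hk using Nat.le_induction with
        | base => intro j _; rfl
        | succ k hk ihk =>
          intro j hj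
          rw [← ihk j hj]
          by_contra hne
          apply hex (k+1) (by omega)
          refine ⟨fun j => Q (k+1) j - Q k j, ⟨j, ?_, sub_ne_zero.2 hne⟩, ?_⟩
          · rcases Nat.lt_succ_iff_lt_or_eq.1 hj with h | h
            · exact h
            · exfalso; apply hne; rw [h, hQn (k+1) (by omega), hQn k hk]
          · intro i hi
            have a1 := hQ (k+1) (by omega) i (by omega)
            have a2 := hQ k hk (i+1) (by omega)
            rw [sum_range_succ, hQn (k+1) (by omega)] at a1
            rw [sum_range_succ, hQn k hk] at a2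
            have e3 : ∑ j ∈ range n, Q k j * M (k + (i+1) + j) =
                ∑ j ∈ range n, Q k j * M (k + 1 + i + j) := by
              apply sum_congr rfl
              intro j _
              congr 2
              omega
            have e4 : k + (i+1) + n = k + 1 + i + n := by omega
            rw [e3, e4] at a2
            simp only [sub_mul, sum_sub_distrib]
            linear_combination a1 - a2
      refine ⟨Q k0, k0, ⟨n, by omega, by rw [hQn k0 le_rfl]; exact one_ne_zero⟩, ?_⟩
      intro k hk
      have := hQ k hk 0 (by omega)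
      rw [← this]
      apply sum_congr rfl
      intro j hj
      rw [hconst k hk j (mem_range.1 hj)]
      rfl

end Pool.Agent.R440.TP
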