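import Mathlib

open MeasureTheory Set Real
open scoped ENNReal

namespace Pool.Agent.R440.TP

/-- The normalised area measure on the open unit disc. -/
noncomputable def dA : Measure ℂ := ENNReal.ofReal (1 / π) • volume.restrict (Metric.ball 0 1)

/-- Lebesgue measure on `(0,1)` -/
noncomputable def mt : Measure ℝ := volume.restrict (Ioo 0 1)

/-- normalised Lebesgue measure on `(-π,π)` -/
noncomputable def mth : Measure ℝ := ENNReal.ofReal (1 / (2*π)) • volume.restrict (Ioo (-π) π)

/-- polar parametrisation `(t, θ) ↦ √t e^{iθ}` -/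
noncomputable def Th (p : ℝ × ℝ) : ℂ := ((√p.1 : ℝ) : ℂ) * Complex.exp (p.2 * Complex.I)

theorem Th_cont : Continuous Th := by
  unfold Th
  fun_prop

theorem sq_image : (fun r : ℝ => r ^ 2) '' Ioo 0 1 = Ioo 0 1 := by
  ext t
  constructor
  · rintro ⟨r, hr, rfl⟩
    exact ⟨by have := hr.1; positivity, by have := hr.1; have := hr.2; simp only; nlinarith⟩
  · intro ht
    refine ⟨√t, ⟨Real.sqrt_pos.2 ht.1, ?_⟩, Real.sq_sqrt ht.1.le⟩
    rw [Real.sqrt_lt' one_pos]
    simpa using ht.2

theorem lint_polar (f : ℂ → ℝ≥0∞) (hf : Measurable f) :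
    ∫⁻ z, f z ∂dA = ∫⁻ t, ∫⁻ θ, f (Th (t, θ)) ∂mth ∂mt := by
  have e1 : ∫⁻ z, f z ∂dA = ENNReal.ofReal (1/π) * ∫⁻ z, (Metric.ball (0:ℂ) 1).indicator f z := by
    rw [dA, lintegral_smul_measure, lintegral_indicator measurableSet_ball]
    rfl
  have e2 : ∫⁻ z, (Metric.ball (0:ℂ) 1).indicator f z =
      ∫⁻ r in Ioo (0:ℝ) 1, ∫⁻ θ in Ioo (-π) π, ENNReal.ofReal r * f (Th (r ^ 2, θ)) := by
    rw [← Complex.lintegral_comp_polarCoord_symm, polarCoord_target, Measure.volume_eq_prod,
      ← Measure.prod_restrict]
    have hm : Measurable (fun p : ℝ × ℝ => ENNReal.ofReal p.1 •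
        (Metric.ball (0:ℂ) 1).indicator f (Complex.polarCoord.symm p)) := by
      apply Measurable.fun_mul
      · fun_prop
      · apply (hf.indicator measurableSet_ball).comp
        have : (fun p : ℝ × ℝ => Complex.polarCoord.symm p) = fun p : ℝ × ℝ =>
            (p.1 : ℂ) * (Real.cos p.2 + Real.sin p.2 * Complex.I) := by
          ext p
          rw [Complex.polarCoord_symm_apply]
        change Measurable (fun p : ℝ × ℝ => Complex.polarCoord.symm p)
        rw [this]
        fun_prop
    rw [lintegral_prod _ hm.aemeasurable]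
    have hsplit : Ioi (0:ℝ) = Ioo 0 1 ∪ Ici 1 := by
      rw [Ioo_union_Ici_eq_Ioi one_pos]
    have hdisj : Disjoint (Ioo (0:ℝ) 1) (Ici 1) := by
      rw [Set.disjoint_left]
      intro x hx hx2
      exact absurd hx.2 (not_lt.2 hx2)
    rw [hsplit, lintegral_union measurableSet_Ici hdisj]
    have hz : ∫⁻ r in Ici (1:ℝ), ∫⁻ θ in Ioo (-π) π, ENNReal.ofReal r •
        (Metric.ball (0:ℂ) 1).indicator f (Complex.polarCoord.symm (r, θ)) = 0 := by
      rw [setLIntegral_congr_fun (g := fun _ => 0) measurableSet_Ici]
      · simp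
      · intro r hr
        simp only
        have : ∀ θ : ℝ, ENNReal.ofReal r •
            (Metric.ball (0:ℂ) 1).indicator f (Complex.polarCoord.symm (r, θ)) = 0 := by
          intro θ
          rw [indicator_of_notMem, smul_zero]
          rw [Metric.mem_ball, dist_zero_right, Complex.polarCoord_symm_apply,
            Complex.ofReal_cos, Complex.ofReal_sin, ← Complex.exp_mul_I, norm_mul,
            Complex.norm_exp_ofReal_mul_I, mul_one]
          simp only [Complex.norm_real, Real.norm_eq_abs, not_lt]
          rw [abs_of_nonneg (by have : (1:ℝ) ≤ r := hr; linarith)]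
          exact hr
        rw [lintegral_congr this, lintegral_zero]
    rw [hz, add_zero]
    apply setLIntegral_congr_fun measurableSet_Ioo
    intro r hr
    simp only
    apply lintegral_congr
    intro θ
    have e : Complex.polarCoord.symm (r, θ) = Th (r^2, θ) := by
      rw [Complex.polarCoord_symm_apply, Complex.ofReal_cos, Complex.ofReal_sin,
        ← Complex.exp_mul_I, Th]
      simp only
      rw [Real.sqrt_sq hr.1.le]
    rw [e, indicator_of_mem, smul_eq_mul]
    rw [Metric.mem_ball, dist_zero_right, Th, norm_mul, Complex.norm_exp_ofReal_mul_I, mul_one]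
    simp only [Complex.norm_real, Real.norm_eq_abs]
    rw [Real.sqrt_sq hr.1.le, abs_of_pos hr.1]
    exact hr.2
  rw [e1, e2, mt]
  conv_rhs => rw [← sq_image]
  rw [lintegral_image_eq_lintegral_abs_deriv_mul (f' := fun r => 2 * r) measurableSet_Ioo
    (fun r _ => by simpa using (hasDerivAt_pow 2 r).hasDerivWithinAt)
    (by
      intro a ha b hb hab
      simp only at hab
      exact (pow_left_inj₀ ha.1.le hb.1.le two_ne_zero).1 hab)]
  rw [← lintegral_const_mul']
  · apply setLIntegral_congr_fun measurableSet_Ioo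
    intro r hr
    simp only
    rw [mth, lintegral_smul_measure, lintegral_const_mul' _ _ ENNReal.ofReal_ne_top, smul_eq_mul,
      ← mul_assoc, ← mul_assoc, ← ENNReal.ofReal_mul (by positivity),
      ← ENNReal.ofReal_mul (by positivity)]
    congr 2
    rw [abs_of_pos (by have := hr.1; linarith)]
    field_simp
  · exact ENNReal.ofReal_ne_top

instance : IsProbabilityMeasure mt := ⟨by
  rw [mt, Measure.restrict_apply_univ, Real.volume_Ioo]; simp⟩

instance : IsProbabilityMeasure mth := ⟨by
  rw [mth, Measure.smul_apply, Measure.restrict_apply_univ, Real.volume_Ioo, smul_eq_mul,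
    ← ENNReal.ofReal_mul (by positivity)]
  rw [ENNReal.ofReal_eq_one]
  field_simp
  ring⟩

theorem mp_Th : MeasurePreserving Th (mt.prod mth) dA := by
  refine ⟨Th_cont.measurable, ?_⟩
  ext s hs
  rw [Measure.map_apply Th_cont.measurable hs, ← lintegral_indicator_one hs,
    lint_polar _ (measurable_one.indicator hs),
    ← lintegral_indicator_one (Th_cont.measurable hs), lintegral_prod _
    ((measurable_one.indicator (Th_cont.measurable hs)).aemeasurable)]
  rfl

instance : IsProbabilityMeasure dA := by
  rw [← mp_Th.map_eq]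
  exact Measure.isProbabilityMeasure_map Th_cont.measurable.aemeasurable

end Pool.Agent.R440.TP
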