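import Pool.Agent.R440.TP.Dbr
import Pool.Agent.R440.TP.Polar

open MeasureTheory Set Finset
open scoped ENNReal ContDiff ComplexConjugate

namespace Pool.Agent.R440.TP

/-- The operator `∂/∂z̄ = (∂/∂x + i ∂/∂y) / 2`. -/
noncomputable def dbar (φ : ℂ → ℂ) (z : ℂ) : ℂ :=
  (fderiv ℝ φ z 1 + Complex.I * fderiv ℝ φ z Complex.I) / 2

/-- test functions on the unit disc -/
def CF (φ : ℂ → ℂ) : Prop :=
  ContDiff ℝ ∞ φ ∧ HasCompactSupport φ ∧ tsupport φ ⊆ Metric.ball 0 1

theorem CF.dbar {φ : ℂ → ℂ} (h : CF φ) : CF (dbar φ) := by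
  have hs : tsupport (TP.dbar φ) ⊆ tsupport φ := by
    apply closure_minimal _ (isClosed_tsupport φ)
    intro z hz
    by_contra hn
    apply hz
    have : fderiv ℝ φ z = 0 := by
      by_contra h0
      exact hn (support_fderiv_subset ℝ h0)
    simp [TP.dbar, this]
  refine ⟨?_, h.2.1.isCompact.of_isClosed_subset (isClosed_tsupport _) hs, hs.trans h.2.2⟩
  have h1 : ContDiff ℝ ∞ (fderiv ℝ φ) := h.1.fderiv_right (by simp)
  have h2 : ContDiff ℝ ∞ (fun z => fderiv ℝ φ z 1) := h1.clm_apply contDiff_const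
  have h3 : ContDiff ℝ ∞ (fun z => fderiv ℝ φ z Complex.I) := h1.clm_apply contDiff_const
  exact (h2.add (contDiff_const.mul h3)).div_const 2

theorem CF.iter {φ : ℂ → ℂ} (h : CF φ) (n : ℕ) : CF (TP.dbar^[n] φ) := by
  induction n with
  | zero => exact h
  | succ n ih => rw [Function.iterate_succ_apply']; exact ih.dbar

theorem CF.diff {φ : ℂ → ℂ} (h : CF φ) : Differentiable ℝ φ := h.1.differentiable (by simp)

theorem dbar_of {φ : ℂ → ℂ} {L : ℂ →L[ℝ] ℂ} {z : ℂ} (h : HasFDerivAt φ L z) :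
    dbar φ z = (L 1 + Complex.I * L Complex.I) / 2 := by
  rw [dbar, h.fderiv]

theorem dbar_mul {f g : ℂ → ℂ} {z : ℂ} (hf : DifferentiableAt ℝ f z)
    (hg : DifferentiableAt ℝ g z) :
    dbar (fun z => f z * g z) z = f z * dbar g z + dbar f z * g z := by
  have h : HasFDerivAt (fun z => f z * g z) _ z := hf.hasFDerivAt.mul hg.hasFDerivAt
  rw [dbar_of h, dbar, dbar]
  simp only [ContinuousLinearMap.add_apply, ContinuousLinearMap.smul_apply, smul_eq_mul]
  ring

theorem dbar_holo {p : ℂ → ℂ} {z : ℂ} (hp : DifferentiableAt ℂ p z) : dbar p z = 0 := by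
  have h1 : HasFDerivAt p ((fderiv ℂ p z).restrictScalars ℝ) z :=
    hp.hasFDerivAt.restrictScalars ℝ
  rw [dbar_of h1]
  simp only [ContinuousLinearMap.coe_restrictScalars']
  have : fderiv ℂ p z Complex.I = Complex.I * fderiv ℂ p z 1 := by
    rw [← smul_eq_mul, ← ContinuousLinearMap.map_smul, smul_eq_mul, mul_one]
  rw [this, ← mul_assoc, Complex.I_mul_I]
  ring

theorem conj_smooth (d : ℕ) : ContDiff ℝ ∞ (fun z : ℂ => (conj z) ^ d) := by
  have : ContDiff ℝ ∞ (fun z : ℂ => conj z) := Complex.conjCLE.contDiff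
  exact this.pow d

theorem dbar_conj (d : ℕ) (z : ℂ) :
    dbar (fun z : ℂ => (conj z) ^ (d+1)) z = (d + 1) * (conj z) ^ d := by
  have h0 : ∀ z, dbar (fun z : ℂ => conj z) z = 1 := by
    intro z
    have h : HasFDerivAt (fun z : ℂ => conj z) (Complex.conjCLE : ℂ →L[ℝ] ℂ) z :=
      Complex.conjCLE.hasFDerivAt
    rw [dbar_of h]
    simp
  induction d with
  | zero => simp [h0]
  | succ d ih =>
    have e : (fun z : ℂ => (conj z) ^ (d+1+1)) = fun z => (conj z)^(d+1) * conj z := by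
      ext z
      rw [pow_succ]
    have hc : DifferentiableAt ℝ (fun z : ℂ => conj z) z := Complex.conjCLE.differentiable z
    rw [e, dbar_mul ((conj_smooth (d+1)).differentiable (by simp) z) hc, ih, h0]
    push_cast
    ring

theorem ibp {h ψ : ℂ → ℂ} (hh : ContDiff ℝ ∞ h) (hψ : CF ψ) :
    ∫ z, h z * dbar ψ z = - ∫ z, dbar h z * ψ z := by
  have key : ∀ v : ℂ, ∫ z, h z * fderiv ℝ ψ z v = - ∫ z, fderiv ℝ h z v * ψ z := by
    intro v
    apply integral_mul_fderiv_eq_neg_fderiv_mul_of_integrable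
    · apply Continuous.integrable_of_hasCompactSupport
      · exact ((hh.fderiv_right (m := ∞) (by simp)).clm_apply contDiff_const).continuous.mul
          hψ.1.continuous
      · exact hψ.2.1.mul_left
    · apply Continuous.integrable_of_hasCompactSupport
      · exact hh.continuous.mul
          ((hψ.1.fderiv_right (m := ∞) (by simp)).clm_apply contDiff_const).continuous
      · exact (hψ.2.1.fderiv_apply (𝕜 := ℝ) v).mul_left
    · apply Continuous.integrable_of_hasCompactSupport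
      · exact hh.continuous.mul hψ.1.continuous
      · exact hψ.2.1.mul_left
    · exact fun z _ => hh.differentiable (by simp) z
    · exact fun z _ => hψ.diff z
  have i1 : ∀ v : ℂ, Integrable (fun z => h z * fderiv ℝ ψ z v) := by
    intro v
    apply Continuous.integrable_of_hasCompactSupport
    · exact hh.continuous.mul
        ((hψ.1.fderiv_right (m := ∞) (by simp)).clm_apply contDiff_const).continuous
    · exact (hψ.2.1.fderiv_apply (𝕜 := ℝ) v).mul_left
  have i2 : ∀ v : ℂ, Integrable (fun z => fderiv ℝ h z v * ψ z) := by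
    intro v
    apply Continuous.integrable_of_hasCompactSupport
    · exact ((hh.fderiv_right (m := ∞) (by simp)).clm_apply contDiff_const).continuous.mul
          hψ.1.continuous
    · exact hψ.2.1.mul_left
  have e1 : ∀ z, h z * dbar ψ z = (1/2) * (h z * fderiv ℝ ψ z 1) +
      (Complex.I/2) * (h z * fderiv ℝ ψ z Complex.I) := by
    intro z; rw [dbar]; ring
  have e2 : ∀ z, dbar h z * ψ z = (1/2) * (fderiv ℝ h z 1 * ψ z) +
      (Complex.I/2) * (fderiv ℝ h z Complex.I * ψ z) := by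
    intro z; rw [dbar]; ring
  rw [integral_congr_ae (Filter.Eventually.of_forall e1),
    integral_congr_ae (Filter.Eventually.of_forall e2),
    integral_add ((i1 1).const_mul _) ((i1 Complex.I).const_mul _),
    integral_add ((i2 1).const_mul _) ((i2 Complex.I).const_mul _),
    integral_const_mul, integral_const_mul, integral_const_mul, integral_const_mul,
    key, key]
  ring

theorem poly_mem {p : ℂ → ℂ} (hp : Differentiable ℂ p) (d : ℕ) : ∀ n, d < n → ∀ φ, CF φ →
    ∫ z, (p z * (conj z) ^ d) * (dbar^[n] φ) z = 0 := by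
  have hp' : ContDiff ℝ ∞ p := (hp.contDiff (n := ∞)).restrict_scalars ℝ
  induction d with
  | zero =>
    intro n hn φ hφ
    obtain ⟨m, rfl⟩ : ∃ m, n = m + 1 := ⟨n-1, by omega⟩
    rw [Function.iterate_succ_apply']
    simp only [pow_zero, mul_one]
    rw [ibp hp' (hφ.iter m)]
    simp [dbar_holo (hp _)]
  | succ d ih =>
    intro n hn φ hφ
    obtain ⟨m, rfl⟩ : ∃ m, n = m + 1 := ⟨n-1, by omega⟩
    rw [Function.iterate_succ_apply']
    rw [ibp (hp'.mul (conj_smooth (d+1))) (hφ.iter m)]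
    have e : ∀ z, dbar (fun z => p z * (conj z)^(d+1)) z * dbar^[m] φ z =
        ((d:ℂ)+1) * ((p z * (conj z)^d) * dbar^[m] φ z) := by
      intro z
      rw [dbar_mul (hp'.differentiable (by simp) z)
        ((conj_smooth (d+1)).differentiable (by simp) z), dbar_holo (hp z), dbar_conj]
      ring
    rw [integral_congr_ae (Filter.Eventually.of_forall e), integral_const_mul,
      ih m (by omega) φ hφ]
    simp

/-- the test functions `z^{-m} χ(|z|²)` -/
noncomputable def Ph (m : ℕ) (χ : ℝ → ℝ) (z : ℂ) : ℂ := (z⁻¹) ^ m * ((χ (‖z‖ ^ 2) : ℝ) : ℂ)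

theorem near_zero {χ : ℝ → ℝ} (h : TF χ) : ∀ᶠ z : ℂ in nhds 0, χ (‖z‖ ^ 2) = 0 := by
  have h0 : (0:ℝ) ∉ tsupport χ := fun h1 => absurd (h.2.2 h1).1 (lt_irrefl _)
  have h1 : ∀ᶠ t : ℝ in nhds 0, χ t = 0 := by
    have : (tsupport χ)ᶜ ∈ nhds (0:ℝ) := (isClosed_tsupport χ).isOpen_compl.mem_nhds h0
    filter_upwards [this] with t ht
    exact image_eq_zero_of_notMem_tsupport ht
  have h2 : Filter.Tendsto (fun z : ℂ => ‖z‖ ^ 2) (nhds 0) (nhds 0) := by
    have : Continuous (fun z : ℂ => ‖z‖ ^ 2) := by fun_prop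
    simpa using this.tendsto 0
  exact h2.eventually h1

theorem Ph_CF {χ : ℝ → ℝ} (h : TF χ) (m : ℕ) : CF (Ph m χ) := by
  have hs : tsupport (Ph m χ) ⊆ (fun z : ℂ => ‖z‖ ^ 2) ⁻¹' (tsupport χ) := by
    apply closure_minimal
    · intro z hz
      apply subset_tsupport
      intro h0
      apply hz
      simp [Ph, h0]
    · exact (isClosed_tsupport χ).preimage (by fun_prop)
  have hs2 : tsupport (Ph m χ) ⊆ Metric.ball 0 1 := by
    intro z hz
    have := (h.2.2 (hs hz)).2
    simp only at this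
    rw [Metric.mem_ball, dist_zero_right]
    by_contra hn
    push Not at hn
    nlinarith [norm_nonneg z]
  refine ⟨?_, ?_, hs2⟩
  · rw [contDiff_iff_contDiffAt]
    intro z
    by_cases hz : z = 0
    · subst hz
      have : Ph m χ =ᶠ[nhds 0] fun _ => 0 := by
        filter_upwards [near_zero h] with z hz
        simp [Ph, hz]
      exact (contDiffAt_const).congr_of_eventuallyEq this
    · have h1 : ContDiffAt ℝ ∞ (fun z : ℂ => (z⁻¹)^m) z := (contDiffAt_inv ℝ hz).pow m
      have h2 : ContDiffAt ℝ ∞ (fun z : ℂ => ((χ (‖z‖ ^ 2) : ℝ) : ℂ)) z := by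
        have : ContDiff ℝ ∞ (fun z : ℂ => χ (‖z‖^2)) := h.1.comp (contDiff_norm_sq ℝ)
        exact (Complex.ofRealCLM.contDiff.comp this).contDiffAt
      exact h1.mul h2
  · exact (isCompact_closedBall (0:ℂ) 1).of_isClosed_subset (isClosed_tsupport _)
      (hs2.trans Metric.ball_subset_closedBall)

theorem Ph_dbar {χ : ℝ → ℝ} (h : TF χ) (m : ℕ) : dbar (Ph (m+1) χ) = Ph m (deriv χ) := by
  ext z
  by_cases hz : z = 0
  · subst hz
    have : Ph (m+1) χ =ᶠ[nhds 0] fun _ => 0 := by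
      filter_upwards [near_zero h] with z hz
      simp [Ph, hz]
    have h2 := (near_zero h.der).self_of_nhds
    rw [dbar, this.fderiv_eq]
    simp only [Ph]
    rw [h2]
    simp
  · have h1 : DifferentiableAt ℂ (fun z : ℂ => (z⁻¹)^(m+1)) z :=
      (differentiableAt_inv hz).pow _
    have h2 : HasFDerivAt (fun z : ℂ => ((χ (‖z‖ ^ 2) : ℝ) : ℂ))
        (Complex.ofRealCLM.comp ((deriv χ (‖z‖^2)) • (2 • (innerSL ℝ z)))) z := by
      have ha : HasFDerivAt (fun z : ℂ => ‖z‖^2) (2 • (innerSL ℝ z)) z :=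
        (hasStrictFDerivAt_norm_sq z).hasFDerivAt
      have hb : HasFDerivAt (fun z : ℂ => χ (‖z‖^2)) ((deriv χ (‖z‖^2)) • (2 • (innerSL ℝ z))) z :=
        (h.diff (‖z‖^2)).hasDerivAt.comp_hasFDerivAt z ha
      exact Complex.ofRealCLM.hasFDerivAt.comp z hb
    have e : Ph (m+1) χ = fun z => (z⁻¹)^(m+1) * ((χ (‖z‖ ^ 2) : ℝ) : ℂ) := rfl
    rw [e, dbar_mul (h1.restrictScalars ℝ) h2.differentiableAt, dbar_holo h1, dbar_of h2, Ph]
    simp only [ContinuousLinearMap.comp_apply, ContinuousLinearMap.smul_apply, innerSL_apply_apply,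
      Complex.ofRealCLM_apply, Complex.inner]
    simp only [nsmul_eq_mul, smul_eq_mul, mul_one, Complex.conj_re, Complex.mul_re, Complex.I_re,
      Complex.I_im, Complex.conj_im, mul_zero, zero_mul, zero_sub, neg_neg, add_zero, Complex.one_re, Complex.one_im, sub_zero]
    have e2 : ((z.re:ℂ) + Complex.I * z.im) = z := by
      rw [mul_comm]; exact Complex.re_add_im z
    have e3 : (z⁻¹)^(m+1) * z = (z⁻¹)^m := by
      rw [pow_succ, mul_assoc, inv_mul_cancel₀ hz, mul_one]
    rw [← e3]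
    push_cast
    linear_combination ((z⁻¹)^(m+1) * ((deriv χ (‖z‖^2) : ℝ):ℂ)) * e2

theorem Ph_iter (n : ℕ) : ∀ {χ : ℝ → ℝ}, TF χ → ∀ m : ℕ,
    dbar^[n] (Ph (m+n) χ) = Ph m (deriv^[n] χ) := by
  induction n with
  | zero => intro χ _ m; rfl
  | succ n ih =>
    intro χ h m
    rw [Function.iterate_succ_apply, ← add_assoc, Ph_dbar h, ih h.der, Function.iterate_succ_apply]

end Pool.Agent.R440.TP
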