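import Mathlib

open MeasureTheory Set Real Finset
open scoped ENNReal ContDiff

namespace Pool.Agent.R440.TP

/-- smooth real functions with compact support in `(0,1)` -/
def TF (χ : ℝ → ℝ) : Prop := ContDiff ℝ ∞ χ ∧ HasCompactSupport χ ∧ tsupport χ ⊆ Ioo 0 1

theorem TF.der {χ : ℝ → ℝ} (h : TF χ) : TF (deriv χ) :=
  ⟨(contDiff_infty_iff_deriv.1 h.1).2, h.2.1.deriv,
    (tsupport_deriv_subset).trans h.2.2⟩

theorem TF.iter {χ : ℝ → ℝ} (h : TF χ) (n : ℕ) : TF (deriv^[n] χ) := by
  induction n with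
  | zero => exact h
  | succ n ih => rw [Function.iterate_succ_apply']; exact ih.der

theorem TF.diff {χ : ℝ → ℝ} (h : TF χ) : Differentiable ℝ χ := (contDiff_infty_iff_deriv.1 h.1).1

theorem TF.sub_smul {χ ρ : ℝ → ℝ} (h : TF χ) (hρ : TF ρ) (c : ℝ) :
    TF (fun x => χ x - c * ρ x) := by
  have hsub : Function.support (fun x => χ x - c * ρ x) ⊆ tsupport χ ∪ tsupport ρ := by
    intro x hx
    by_contra hn
    rw [Set.mem_union, not_or] at hn
    apply hx
    simp only
    rw [image_eq_zero_of_notMem_tsupport hn.1, image_eq_zero_of_notMem_tsupport hn.2]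
    simp
  have hcl : IsClosed (tsupport χ ∪ tsupport ρ) :=
    (isClosed_tsupport χ).union (isClosed_tsupport ρ)
  have hts : tsupport (fun x => χ x - c * ρ x) ⊆ tsupport χ ∪ tsupport ρ :=
    closure_minimal hsub hcl
  refine ⟨h.1.sub (contDiff_const.mul hρ.1), ?_, hts.trans (union_subset h.2.2 hρ.2.2)⟩
  exact (h.2.1.isCompact.union hρ.2.1.isCompact).of_isClosed_subset (isClosed_tsupport _) hts

theorem iter_sub {χ ρ : ℝ → ℝ} (h : TF χ) (hρ : TF ρ) (c : ℝ) (n : ℕ) :
    deriv^[n] (fun x => χ x - c * ρ x) = fun x => deriv^[n] χ x - c * deriv^[n] ρ x := by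
  induction n with
  | zero => rfl
  | succ n ih =>
    rw [Function.iterate_succ_apply', ih]
    ext x
    rw [Function.iterate_succ_apply', Function.iterate_succ_apply']
    rw [deriv_fun_sub ((h.iter n).diff x) (((hρ.iter n).diff x).const_mul c),
      deriv_const_mul c ((hρ.iter n).diff x)]

theorem TF.integrable_smul {χ : ℝ → ℝ} (h : TF χ) {U : ℝ → ℂ}
    (hU : LocallyIntegrableOn U (Ioo 0 1)) : Integrable (fun x => χ x • U x) := by
  have h1 : IntegrableOn U (tsupport χ) := hU.integrableOn_compact_subset h.2.2 h.2.1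
  have h2 : IntegrableOn (fun x => χ x • U x) (tsupport χ) :=
    h1.continuousOn_smul h.1.continuous.continuousOn h.2.1
  rwa [integrableOn_iff_integrable_of_support_subset] at h2
  intro x hx
  apply subset_tsupport
  intro h0
  apply hx
  simp only [h0, zero_smul]

theorem TF.integrable {χ : ℝ → ℝ} (h : TF χ) : Integrable χ :=
  h.1.continuous.integrable_of_hasCompactSupport h.2.1

theorem TF.prim {φ : ℝ → ℝ} (h : TF φ) (h0 : ∫ x, φ x = 0) : ∃ χ, TF χ ∧ deriv χ = φ := by
  obtain ⟨a, b, ha, hb, hK⟩ : ∃ a b : ℝ, 0 < a ∧ b < 1 ∧ tsupport φ ⊆ Set.Icc a b := by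
    by_cases hne : (tsupport φ).Nonempty
    · obtain ⟨a, ha⟩ := h.2.1.isCompact.exists_isLeast hne
      obtain ⟨b, hb⟩ := h.2.1.isCompact.exists_isGreatest hne
      exact ⟨a, b, (h.2.2 ha.1).1, (h.2.2 hb.1).2, fun x hx => ⟨ha.2 hx, hb.2 hx⟩⟩
    · rw [Set.not_nonempty_iff_eq_empty] at hne
      exact ⟨1/2, 1/2, by norm_num, by norm_num, by rw [hne]; exact empty_subset _⟩
  have hz : ∀ x, x ∉ Set.Icc a b → φ x = 0 := fun x hx =>
    image_eq_zero_of_notMem_tsupport (fun h => hx (hK h))
  set χ : ℝ → ℝ := fun x => ∫ t in (0:ℝ)..x, φ t with hχ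
  have hder : ∀ x, HasDerivAt χ (φ x) x := fun x =>
    intervalIntegral.integral_hasDerivAt_right (h.1.continuous.intervalIntegrable _ _)
      h.1.continuous.aestronglyMeasurable.stronglyMeasurableAtFilter h.1.continuous.continuousAt
  have hd : deriv χ = φ := funext fun x => (hder x).deriv
  have hout : ∀ x, x ∉ Set.Icc a b → χ x = 0 := by
    intro x hx
    rw [Set.mem_Icc, not_and_or, not_le, not_le] at hx
    rcases hx with hx | hx
    · simp only [hχ]
      rw [intervalIntegral.integral_zero_ae]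
      filter_upwards with t ht
      apply hz
      intro ht2
      have := ht.2
      rcases le_total 0 x with h1 | h1
      · rw [max_eq_right h1] at this; linarith [ht2.1]
      · rw [max_eq_left h1] at this; linarith [ht2.1]
    · simp only [hχ]
      rw [intervalIntegral.integral_eq_integral_of_support_subset, h0]
      intro t ht
      by_contra hn
      apply ht
      apply hz
      intro ht2
      exact hn ⟨by linarith [ht2.1], by linarith [ht2.2]⟩
  have hts : tsupport χ ⊆ Set.Icc a b := by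
    apply closure_minimal _ isClosed_Icc
    intro x hx
    by_contra hn
    exact hx (hout x hn)
  refine ⟨χ, ⟨?_, ?_, ?_⟩, hd⟩
  · rw [contDiff_infty_iff_deriv]
    exact ⟨fun x => (hder x).differentiableAt, hd ▸ h.1⟩
  · exact isCompact_Icc.of_isClosed_subset (isClosed_tsupport _) hts
  · exact hts.trans fun x hx => ⟨by linarith [hx.1], by linarith [hx.2]⟩

theorem exists_TF : ∃ ρ, TF ρ ∧ ∫ x, ρ x = 1 := by
  let f : ContDiffBump (1/2 : ℝ) := ⟨1/8, 1/4, by norm_num, by norm_num⟩
  refine ⟨f.normed volume, ⟨f.contDiff_normed, f.hasCompactSupport_normed, ?_⟩, f.integral_normed⟩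
  rw [f.tsupport_normed_eq, Real.closedBall_eq_Icc]
  intro x hx
  have h1 : (1:ℝ)/2 - 1/4 ≤ x := hx.1
  have h2 : x ≤ (1:ℝ)/2 + 1/4 := hx.2
  exact ⟨by linarith, by linarith⟩

theorem moment (n : ℕ) : ∀ {φ : ℝ → ℝ}, TF φ →
    ∫ x, (deriv^[n] φ x) * x ^ n = (-1) ^ n * n.factorial * ∫ x, φ x := by
  induction n with
  | zero => intro φ _; simp
  | succ n ih =>
    intro φ h
    have h1 := (h.iter n)
    have hint : ∀ {ψ : ℝ → ℝ}, TF ψ → ∀ m : ℕ, Integrable (fun x => ψ x * x ^ m) := by
      intro ψ hψ m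
      exact (hψ.1.continuous.mul (continuous_pow m)).integrable_of_hasCompactSupport
        (hψ.2.1.mul_right)
    have h2 : ∫ x, (deriv (deriv^[n] φ) x * x ^ (n+1) + deriv^[n] φ x * (((n+1:ℕ):ℝ) * x ^ n)) = 0 := by
      apply integral_eq_zero_of_hasDerivAt_of_integrable
        (f := fun x => deriv^[n] φ x * x ^ (n+1))
      · intro x
        exact (h1.diff x).hasDerivAt.mul (by simpa using hasDerivAt_pow (n+1) x)
      · apply (hint h1.der (n+1)).add
        have := (hint h1 n).const_mul ((n+1:ℕ):ℝ)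
        refine this.congr ?_
        filter_upwards with x
        ring
      · exact hint h1 (n+1)
    rw [integral_add (hint h1.der (n+1))] at h2
    · have h3 : ∫ x, deriv^[n] φ x * (((n+1:ℕ):ℝ) * x ^ n) =
          ((n+1:ℕ):ℝ) * ∫ x, deriv^[n] φ x * x ^ n := by
        rw [← integral_const_mul]
        congr 1
        ext x
        ring
      rw [h3, ih h] at h2
      rw [Function.iterate_succ_apply', Nat.factorial_succ, pow_succ]
      push_cast at h2 ⊢
      linarith
    · have := (hint h1 n).const_mul ((n+1:ℕ):ℝ)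
      refine this.congr ?_
      filter_upwards with x
      ring

theorem dbr (n : ℕ) : ∀ (U : ℝ → ℂ), LocallyIntegrableOn U (Ioo 0 1) →
    (∀ χ, TF χ → ∫ x, (deriv^[n] χ x) • U x = 0) →
    ∃ c : ℕ → ℂ, ∀ᵐ x, x ∈ Ioo (0:ℝ) 1 → U x = ∑ j ∈ Finset.range n, c j * (x:ℂ) ^ j := by
  induction n with
  | zero =>
    intro U hU h
    refine ⟨0, ?_⟩
    have := isOpen_Ioo.ae_eq_zero_of_integral_contDiff_smul_eq_zero hU
      (fun g h1 h2 h3 => h g ⟨h1, h2, h3⟩)
    simpa using this
  | succ n ih =>
    intro U hU h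
    obtain ⟨ρ, hρ, hρ1⟩ := exists_TF
    set C : ℂ := ∫ x, (deriv^[n] ρ x) • U x with hC
    set A : ℂ := (-1) ^ n * C / n.factorial with hA
    have hloc : LocallyIntegrableOn (fun x : ℝ => A * (x:ℂ) ^ n) (Ioo 0 1) := by
      apply Continuous.locallyIntegrable _ |>.locallyIntegrableOn
      fun_prop
    obtain ⟨c, hc⟩ := ih (fun x => U x - A * (x:ℂ) ^ n) (hU.sub hloc) (by
      intro φ hφ
      obtain ⟨χ, hχ, hχd⟩ := (hφ.sub_smul hρ (∫ x, φ x)).prim (by
        rw [integral_sub hφ.integrable (hρ.integrable.const_mul _), integral_const_mul, hρ1]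
        ring)
      have h1 := h χ hχ
      rw [Function.iterate_succ_apply, hχd, iter_sub hφ hρ] at h1
      have h2 : ∫ x, (deriv^[n] φ x) • U x = ((∫ x, φ x : ℝ) : ℂ) * C := by
        have e : (fun x => (deriv^[n] φ x - (∫ x, φ x) * deriv^[n] ρ x) • U x) =
            fun x => (deriv^[n] φ x) • U x - ((∫ x, φ x : ℝ) : ℂ) * ((deriv^[n] ρ x) • U x) := by
          ext x
          simp only [Complex.real_smul]
          push_cast
          ring
        simp only at h1
        rw [e, integral_sub ((hφ.iter n).integrable_smul hU)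
          (((hρ.iter n).integrable_smul hU).const_mul _), integral_const_mul] at h1
        exact sub_eq_zero.1 h1
      have h3 : ∫ x, (deriv^[n] φ x) • (A * (x:ℂ) ^ n) = ((∫ x, φ x : ℝ) : ℂ) * C := by
        have e : (fun x : ℝ => (deriv^[n] φ x) • (A * (x:ℂ) ^ n)) =
            fun x : ℝ => A * (((deriv^[n] φ x) * x ^ n : ℝ) : ℂ) := by
          ext x
          simp only [Complex.real_smul]
          push_cast
          ring
        rw [e, integral_const_mul, integral_complex_ofReal, moment n hφ, hA]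
        have hf : (n.factorial : ℂ) ≠ 0 := by exact_mod_cast n.factorial_ne_zero
        push_cast
        field_simp
        rw [← pow_mul]
        simp [pow_mul']
      have e : (fun x : ℝ => (deriv^[n] φ x) • (U x - A * (x:ℂ) ^ n)) =
          fun x : ℝ => (deriv^[n] φ x) • U x - (deriv^[n] φ x) • (A * (x:ℂ) ^ n) := by
        ext x
        rw [smul_sub]
      rw [e, integral_sub ((hφ.iter n).integrable_smul hU) ((hφ.iter n).integrable_smul hloc),
        h2, h3, sub_self])
    refine ⟨fun j => if j = n then A else c j, ?_⟩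
    filter_upwards [hc] with x hx hxI
    have := hx hxI
    rw [Finset.sum_range_succ, if_pos rfl]
    have e : ∑ j ∈ Finset.range n, (if j = n then A else c j) * (x:ℂ) ^ j =
        ∑ j ∈ Finset.range n, c j * (x:ℂ) ^ j := by
      apply Finset.sum_congr rfl
      intro j hj
      rw [if_neg (by have := Finset.mem_range.1 hj; omega)]
    rw [e, ← this]
    ring

end Pool.Agent.R440.TP
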