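import Pool.Agent.R440.TP.Modes

open MeasureTheory Set Finset
open scoped ENNReal ContDiff ComplexConjugate

namespace Pool.Agent.R440.TP

/-- monomials in `z, z̄` -/
def mon (p : ℕ × ℕ) : ℂ → ℂ := fun z => z ^ p.1 * (conj z) ^ p.2

/-- polynomials in `z, z̄` -/
def MS : Submodule ℂ (ℂ → ℂ) := Submodule.span ℂ (Set.range mon)

theorem MS_cont {p : ℂ → ℂ} (hp : p ∈ MS) : Continuous p := by
  induction hp using Submodule.span_induction with
  | mem x hx =>
    obtain ⟨q, rfl⟩ := hx
    unfold mon
    fun_prop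
  | zero => exact continuous_const
  | add x y _ _ hx hy => exact hx.add hy
  | smul a x _ hx => exact continuous_const.mul hx

theorem approx (g : ℂ → ℂ) (hg : Continuous g) (ε : ℝ) (hε : 0 < ε) :
    ∃ p ∈ MS, ∀ z ∈ Metric.closedBall (0:ℂ) 1, ‖p z - g z‖ < ε := by
  set K : Set ℂ := Metric.closedBall (0:ℂ) 1 with hK
  have : CompactSpace K := isCompact_iff_compactSpace.1 (isCompact_closedBall (0:ℂ) 1)
  have htop := ContinuousMap.elemental_id_eq_top (𝕜 := ℂ) K
  set ID : C(K, ℂ) := ContinuousMap.restrict K (.id ℂ) with hID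
  let G : C(K, ℂ) := ⟨fun z => g z, hg.comp continuous_subtype_val⟩
  have hG : G ∈ StarAlgebra.elemental ℂ ID := by rw [htop]; trivial
  have hG2 : G ∈ closure ((StarAlgebra.adjoin ℂ {ID} : StarSubalgebra ℂ C(K, ℂ)) : Set C(K, ℂ)) :=
    hG
  rw [Metric.mem_closure_iff] at hG2
  obtain ⟨F, hF, hdist⟩ := hG2 ε hε
  have hF2 : F ∈ Algebra.adjoin ℂ ({ID} ∪ star {ID}) := hF
  rw [← Subalgebra.mem_toSubmodule, Algebra.adjoin_eq_span] at hF2
  have hcl : ∀ H ∈ Submonoid.closure (({ID} ∪ star {ID} : Set C(K, ℂ))),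
      ∃ q : ℕ × ℕ, ∀ z : K, H z = mon q z := by
    intro H hH
    induction hH using Submonoid.closure_induction with
    | mem x hx =>
      rcases hx with hx | hx
      · rw [Set.mem_singleton_iff] at hx
        refine ⟨(1, 0), fun z => ?_⟩
        rw [hx]
        simp [hID, mon]
      · rw [Set.mem_star, Set.mem_singleton_iff] at hx
        refine ⟨(0, 1), fun z => ?_⟩
        have : x = star ID := by rw [← hx, star_star]
        rw [this]
        simp [hID, mon]
    | one => exact ⟨(0, 0), fun z => by simp [mon]⟩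
    | mul x y _ _ hx hy =>
      obtain ⟨q, hq⟩ := hx
      obtain ⟨r, hr⟩ := hy
      refine ⟨(q.1 + r.1, q.2 + r.2), fun z => ?_⟩
      rw [ContinuousMap.mul_apply, hq, hr]
      simp only [mon]
      ring
  have hsp : ∃ p ∈ MS, ∀ z : K, F z = p z := by
    clear hdist hF
    induction hF2 using Submodule.span_induction with
    | mem x hx =>
      obtain ⟨q, hq⟩ := hcl x hx
      exact ⟨mon q, Submodule.subset_span ⟨q, rfl⟩, hq⟩
    | zero => exact ⟨0, Submodule.zero_mem _, fun z => rfl⟩
    | add x y _ _ hx hy =>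
      obtain ⟨p, hp, hp2⟩ := hx
      obtain ⟨q, hq, hq2⟩ := hy
      exact ⟨p + q, Submodule.add_mem _ hp hq, fun z => by
        rw [ContinuousMap.add_apply, hp2, hq2, Pi.add_apply]⟩
    | smul a x _ hx =>
      obtain ⟨p, hp, hp2⟩ := hx
      exact ⟨a • p, Submodule.smul_mem _ _ hp, fun z => by
        rw [ContinuousMap.smul_apply, hp2, Pi.smul_apply]⟩
  obtain ⟨p, hp, hp2⟩ := hsp
  refine ⟨p, hp, fun z hz => ?_⟩
  have h1 := hp2 ⟨z, hz⟩
  simp only at h1
  rw [← h1]
  have h2 : ‖(G - F) ⟨z, hz⟩‖ ≤ ‖G - F‖ := ContinuousMap.norm_coe_le_norm _ _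
  rw [dist_eq_norm] at hdist
  rw [norm_sub_rev]
  exact lt_of_le_of_lt h2 hdist

theorem MS_int {h : ℂ → ℂ} (hh : Integrable h dA)
    (h0 : ∀ a b : ℕ, ∫ z, h z * (z ^ a * (conj z) ^ b) ∂dA = 0) {p : ℂ → ℂ} (hp : p ∈ MS) :
    ∫ z, h z * p z ∂dA = 0 := by
  have hi : ∀ {g : ℂ → ℂ}, Continuous g → Integrable (fun z => h z * g z) dA := by
    intro g hg
    have h1 : MemLp h 1 dA := memLp_one_iff_integrable.2 hh
    have := (mul_top (cont_top hg) h1).integrable le_rfl
    refine this.congr ?_
    filter_upwards with z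
    ring
  induction hp using Submodule.span_induction with
  | mem x hx =>
    obtain ⟨q, rfl⟩ := hx
    exact h0 q.1 q.2
  | zero => simp
  | add x y hx hy hx2 hy2 =>
    have : ∀ z, h z * (x + y) z = h z * x z + h z * y z := by
      intro z; rw [Pi.add_apply]; ring
    rw [integral_congr_ae (Filter.Eventually.of_forall this),
      integral_add (hi (MS_cont hx)) (hi (MS_cont hy)), hx2, hy2, add_zero]
  | smul a x _ hx =>
    have : ∀ z, h z * (a • x) z = a * (h z * x z) := by
      intro z; rw [Pi.smul_apply, smul_eq_mul]; ring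
    rw [integral_congr_ae (Filter.Eventually.of_forall this), integral_const_mul, hx, mul_zero]

theorem cpos : (ENNReal.ofReal (1 / Real.pi)) ≠ 0 := by
  rw [Ne, ENNReal.ofReal_eq_zero, not_le]
  positivity

theorem density2 {h : ℂ → ℂ} (hh : Integrable h dA)
    (h0 : ∀ a b : ℕ, ∫ z, h z * (z ^ a * (conj z) ^ b) ∂dA = 0) : ∀ᵐ z ∂dA, h z = 0 := by
  have hh2 : Integrable h (volume.restrict (Metric.ball 0 1)) := by
    rw [dA, integrable_smul_measure cpos ENNReal.ofReal_ne_top] at hh
    exact hh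
  have hloc : LocallyIntegrableOn h (Metric.ball 0 1) volume :=
    IntegrableOn.locallyIntegrableOn hh2
  have := Metric.isOpen_ball.ae_eq_zero_of_integral_contDiff_smul_eq_zero hloc (by
    intro g hg1 hg2 hg3
    rw [← setIntegral_eq_integral_of_forall_compl_eq_zero (s := Metric.ball (0:ℂ) 1)
      (by
        intro t ht
        rw [image_eq_zero_of_notMem_tsupport fun h => ht (hg3 h), zero_smul])]
    have hcont : Continuous (fun z => ((g z : ℝ) : ℂ)) := by
      have := hg1.continuous
      fun_prop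
    have h1i : MemLp h 1 dA := memLp_one_iff_integrable.2 hh
    have hi : ∀ {g : ℂ → ℂ}, Continuous g → Integrable (fun z => h z * g z) dA := by
      intro g hg
      have := (mul_top (cont_top hg) h1i).integrable le_rfl
      refine this.congr ?_
      filter_upwards with z
      ring
    have hle : ∀ ε > 0, ‖∫ z, h z * ((g z : ℝ) : ℂ) ∂dA‖ ≤ ε * ∫ t, ‖h t‖ ∂dA := by
      intro ε hε
      obtain ⟨p, hp, hp2⟩ := approx _ hcont ε hε
      have e1 : ∫ z, h z * ((g z : ℝ) : ℂ) ∂dA =
          ∫ z, (h z * ((g z : ℝ) : ℂ) - h z * p z) ∂dA := by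
        rw [integral_sub (hi hcont) (hi (MS_cont hp)), MS_int hh h0 hp, sub_zero]
      rw [e1, ← integral_const_mul]
      apply norm_integral_le_of_norm_le (hh.norm.const_mul ε)
      filter_upwards [ae_ball] with z hz
      rw [← mul_sub, norm_mul, mul_comm]
      apply mul_le_mul_of_nonneg_right _ (norm_nonneg _)
      rw [norm_sub_rev]
      exact (hp2 z (Metric.ball_subset_closedBall hz)).le
    have hz : ∫ z, h z * ((g z : ℝ) : ℂ) ∂dA = 0 := by
      rw [← norm_eq_zero]
      apply le_antisymm _ (norm_nonneg _)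
      apply le_of_forall_pos_le_add
      intro ε hε
      have hI : 0 ≤ ∫ t, ‖h t‖ ∂dA := integral_nonneg fun _ => norm_nonneg _
      have := hle (ε / (∫ t, ‖h t‖ ∂dA + 1)) (by positivity)
      refine this.trans ?_
      rw [zero_add, div_mul_eq_mul_div, div_le_iff₀ (by positivity)]
      nlinarith
    rw [dA, integral_smul_measure] at hz
    have hne : (ENNReal.ofReal (1 / Real.pi)).toReal ≠ 0 := by
      rw [ENNReal.toReal_ofReal (by positivity)]
      positivity
    have hz2 := (smul_eq_zero.1 hz).resolve_left hne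
    refine Eq.trans ?_ hz2
    apply integral_congr_ae
    filter_upwards with z
    rw [Complex.real_smul, mul_comm])
  rw [dA]
  apply Measure.ae_smul_measure
  rw [ae_restrict_iff' measurableSet_ball]
  exact this

end Pool.Agent.R440.TP
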