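import Pool.Agent.R440.TP.Dens

open MeasureTheory Set Finset Filter
open scoped ENNReal ContDiff ComplexConjugate InnerProductSpace Topology

namespace Pool.Agent.R440.TP

theorem int_cont {H g : ℂ → ℂ} (hH : Integrable H dA) (hg : Continuous g) :
    Integrable (fun z => H z * g z) dA := by
  have h1 : MemLp H 1 dA := memLp_one_iff_integrable.2 hH
  have := (mul_top (cont_top hg) h1).integrable le_rfl
  refine this.congr ?_
  filter_upwards with z
  ring

theorem diff_exp {H φ : ℂ → ℂ} (hH : Integrable H dA) (hφ : Continuous φ)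
    (hb : ∀ z ∈ Metric.ball (0:ℂ) 1, ‖φ z‖ ≤ 1) :
    Differentiable ℂ (fun ξ : ℂ => ∫ z, H z * Complex.exp (ξ * φ z) ∂dA) := by
  intro ξ0
  have hc : ∀ ξ : ℂ, Continuous (fun z => Complex.exp (ξ * φ z)) := by
    intro ξ
    fun_prop
  refine (hasDerivAt_integral_of_dominated_loc_of_deriv_le
    (F := fun ξ z => H z * Complex.exp (ξ * φ z))
    (F' := fun ξ z => H z * (Complex.exp (ξ * φ z) * φ z)) (s := Metric.ball ξ0 1)
    (bound := fun z => ‖H z‖ * Real.exp (‖ξ0‖ + 1)) (Metric.ball_mem_nhds _ one_pos)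
    ?_ (int_cont hH (hc ξ0)) ?_ ?_ ?_ ?_).2.differentiableAt
  · exact Eventually.of_forall fun ξ => (int_cont hH (hc ξ)).aestronglyMeasurable
  · exact (int_cont hH ((hc ξ0).mul hφ)).aestronglyMeasurable
  · filter_upwards [ae_ball] with z hz ξ hξ
    rw [norm_mul, norm_mul]
    apply mul_le_mul_of_nonneg_left _ (norm_nonneg _)
    have h1 : ‖ξ * φ z‖ ≤ ‖ξ0‖ + 1 := by
      rw [norm_mul]
      have h2 : ‖ξ‖ ≤ ‖ξ0‖ + 1 := by
        rw [Metric.mem_ball, dist_eq_norm] at hξ
        have := norm_le_norm_add_norm_sub' ξ ξ0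
        linarith
      have h3 := hb z hz
      nlinarith [norm_nonneg ξ, norm_nonneg (φ z)]
    have h4 : ‖Complex.exp (ξ * φ z)‖ ≤ Real.exp (‖ξ0‖ + 1) :=
      (Complex.norm_exp_le_exp_norm _).trans (Real.exp_le_exp.2 h1)
    have h5 := hb z hz
    have h6 : 0 < Real.exp (‖ξ0‖ + 1) := Real.exp_pos _
    nlinarith [norm_nonneg (Complex.exp (ξ * φ z)), norm_nonneg (φ z)]
  · exact hH.norm.mul_const _
  · filter_upwards with z ξ _
    apply HasDerivAt.const_mul
    have h1 : HasDerivAt (fun ξ : ℂ => ξ * φ z) (φ z) ξ := by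
      simpa using (hasDerivAt_id ξ).mul_const (φ z)
    exact h1.cexp

theorem exp_zero' {H : ℂ → ℂ} (hH : Integrable H dA)
    (h0 : ∀ k : ℕ, ∫ z, H z * (conj z) ^ k ∂dA = 0) (η : ℂ) :
    ∫ z, H z * Complex.exp (η * conj z) ∂dA = 0 := by
  set F : ℕ → ℂ → ℂ := fun m z => H z * ((η * conj z) ^ m / m.factorial) with hF
  have hc : ∀ m : ℕ, Continuous (fun z : ℂ => (η * conj z) ^ m / (m.factorial : ℂ)) := by
    intro m
    fun_prop
  have hFi : ∀ m, Integrable (F m) dA := fun m => int_cont hH (hc m)
  have hF0 : ∀ m, ∫ z, F m z ∂dA = 0 := by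
    intro m
    have e : ∀ z, F m z = (η ^ m / m.factorial) * (H z * (conj z) ^ m) := by
      intro z
      simp only [hF]
      rw [mul_pow]
      ring
    rw [integral_congr_ae (Eventually.of_forall e), integral_const_mul, h0, mul_zero]
  have hsum : Summable fun m => ∫ z, ‖F m z‖ ∂dA := by
    have h1 : Summable fun m : ℕ => (‖η‖ ^ m / m.factorial) * ∫ z, ‖H z‖ ∂dA :=
      (Real.summable_pow_div_factorial ‖η‖).mul_right _
    apply Summable.of_nonneg_of_le _ _ h1
    · intro m
      exact integral_nonneg fun _ => norm_nonneg _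
    · intro m
      rw [← integral_const_mul]
      apply integral_mono_ae (hFi m).norm (hH.norm.const_mul _)
      filter_upwards [ae_ball] with z hz
      rw [Metric.mem_ball, dist_zero_right] at hz
      simp only [hF]
      rw [norm_mul, mul_comm]
      apply mul_le_mul_of_nonneg_right _ (norm_nonneg _)
      rw [norm_div, norm_pow, norm_mul, Complex.norm_conj, Complex.norm_natCast]
      apply div_le_div_of_nonneg_right _ (by positivity)
      apply pow_le_pow_left₀ (by positivity)
      nlinarith [norm_nonneg η, norm_nonneg z]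
  have h2 := hasSum_integral_of_summable_integral_norm hFi hsum
  simp only [hF0] at h2
  have h3 := h2.unique hasSum_zero
  rw [← h3]
  apply integral_congr_ae
  filter_upwards with z
  simp only [hF]
  rw [tsum_mul_left, Complex.exp_eq_exp_ℂ, NormedSpace.exp_eq_tsum_div]

theorem rl {H : ℂ → ℂ} :
    Tendsto (fun ξ : ℂ => ∫ z, H z * Complex.exp (ξ * z - conj ξ * conj z) ∂dA)
      (cocompact ℂ) (𝓝 0) := by
  set f : ℂ → ℂ := (Metric.ball (0:ℂ) 1).indicator H with hf
  have h1 := tendsto_integral_exp_inner_smul_cocompact (V := ℂ) f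
  set W : ℂ → ℂ := fun ξ => -Complex.I * conj ξ / Real.pi with hW
  have h2 : Tendsto W (cocompact ℂ) (cocompact ℂ) := by
    rw [← Metric.cobounded_eq_cocompact, ← tendsto_norm_atTop_iff_cobounded]
    have : (fun ξ => ‖W ξ‖) = fun ξ : ℂ => ‖ξ‖ / Real.pi := by
      ext ξ
      simp only [hW]
      rw [norm_div, norm_mul, norm_neg, Complex.norm_I, one_mul, Complex.norm_conj,
        Complex.norm_real, Real.norm_of_nonneg Real.pi_pos.le]
    rw [this]
    exact tendsto_norm_cobounded_atTop.atTop_div_const Real.pi_pos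
  have h3 := (h1.comp h2).const_mul (((ENNReal.ofReal (1 / Real.pi)).toReal : ℝ) : ℂ)
  rw [mul_zero] at h3
  refine h3.congr ?_
  intro ξ
  simp only [Function.comp_apply]
  rw [dA, integral_smul_measure, ← integral_indicator measurableSet_ball]
  rw [Complex.real_smul]
  congr 1
  apply integral_congr_ae
  filter_upwards with z
  by_cases hz : z ∈ Metric.ball (0:ℂ) 1
  · rw [Set.indicator_of_mem hz, hf, Set.indicator_of_mem hz, Circle.smul_def,
      Real.fourierChar_apply, smul_eq_mul, mul_comm]
    congr 2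
    simp only [hW, Complex.inner]
    have e1 : (-Complex.I * conj ξ / (Real.pi:ℂ) * conj z).re = -(ξ * z).im / Real.pi := by
      have : -Complex.I * conj ξ / (Real.pi:ℂ) * conj z =
          (-Complex.I * conj (ξ * z)) / (Real.pi : ℂ) := by
        rw [map_mul]; ring
      rw [this, Complex.div_ofReal_re]
      simp
      ring
    rw [e1]
    have hpi : (Real.pi : ℂ) ≠ 0 := by exact_mod_cast Real.pi_ne_zero
    have e2 : ξ * z - conj ξ * conj z = ((2 * (ξ * z).im : ℝ) : ℂ) * Complex.I := by
      rw [← map_mul, Complex.sub_conj]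
    rw [e2]
    congr 1
    push_cast
    field_simp
  · rw [Set.indicator_of_notMem hz, hf, Set.indicator_of_notMem hz, smul_zero]

theorem lk_contra {G : ℂ → ℂ} (hG : Integrable G dA) {r : ℕ} (hr : 1 ≤ r)
    (hdet : ∀ u : Fin (r+1) → ℂ → ℂ, (∀ j, Differentiable ℂ (u j)) → ∀ k : Fin (r+1) → ℕ,
      Matrix.det (Matrix.of fun i j : Fin (r+1) =>
        ∫ z, G z * (u j z * (conj z) ^ (k i)) ∂dA) = 0)
    (u : Fin r → ℂ → ℂ) (hu : ∀ j, Differentiable ℂ (u j)) (k : Fin r → ℕ)
    (hΔ : Matrix.det (Matrix.of fun i j : Fin r =>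
        ∫ z, G z * (u j z * (conj z) ^ (k i)) ∂dA) ≠ 0) : False := by
  set m : Matrix (Fin r) (Fin r) ℂ := Matrix.of fun i j : Fin r =>
        ∫ z, G z * (u j z * (conj z) ^ (k i)) ∂dA with hm
  -- correction of an entire function
  have hcorr : ∀ w : ℂ → ℂ, Differentiable ℂ w → ∀ c : Fin r → ℂ,
      c = m⁻¹.mulVec (fun i => ∫ z, G z * (w z * (conj z) ^ (k i)) ∂dA) →
      ∀ κ : ℕ, ∫ z, G z * ((w z - ∑ l, c l * u l z) * (conj z) ^ κ) ∂dA = 0 := by
    intro w hw c hc κ
    have hlin : ∀ κ : ℕ, ∫ z, G z * ((w z - ∑ l, c l * u l z) * (conj z) ^ κ) ∂dA =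
        ∫ z, G z * (w z * (conj z) ^ κ) ∂dA -
          ∑ l, c l * ∫ z, G z * (u l z * (conj z) ^ κ) ∂dA := by
      intro κ
      have e : ∀ z, G z * ((w z - ∑ l, c l * u l z) * (conj z) ^ κ) =
          G z * (w z * (conj z) ^ κ) - ∑ l, c l * (G z * (u l z * (conj z) ^ κ)) := by
        intro z
        have : ∑ l, c l * (G z * (u l z * (conj z) ^ κ)) =
            G z * (∑ l, c l * u l z) * (conj z) ^ κ := by
          rw [mul_sum, sum_mul]
          apply sum_congr rfl
          intro l _
          ring
        rw [this]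
        ring
      have i1 : ∀ v : ℂ → ℂ, Differentiable ℂ v →
          Integrable (fun z => G z * (v z * (conj z) ^ κ)) dA := fun v hv =>
        int_cont hG (hv.continuous.mul (conj_cont κ))
      rw [integral_congr_ae (Eventually.of_forall e), integral_sub (i1 w hw)
        (integrable_finsetSum _ fun l _ => (i1 _ (hu l)).const_mul _), integral_finsetSum]
      · congr 1
        apply sum_congr rfl
        intro l _
        rw [integral_const_mul]
      · intro l _
        exact (i1 _ (hu l)).const_mul _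
    have hmc : m.mulVec c = fun i => ∫ z, G z * (w z * (conj z) ^ (k i)) ∂dA := by
      rw [hc, Matrix.mulVec_mulVec, Matrix.mul_nonsing_inv _ (isUnit_iff_ne_zero.2 hΔ),
        Matrix.one_mulVec]
    have hz : ∀ i, ∫ z, G z * ((w z - ∑ l, c l * u l z) * (conj z) ^ (k i)) ∂dA = 0 := by
      intro i
      rw [hlin]
      have := congrFun hmc i
      simp only [Matrix.mulVec, dotProduct, hm, Matrix.of_apply] at this
      rw [← this, sub_eq_zero]
      apply sum_congr rfl
      intro l _
      ring
    have hwd : Differentiable ℂ (fun z => w z - ∑ l, c l * u l z) := by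
      apply hw.sub
      apply Differentiable.fun_sum
      intro l _
      exact (hu l).const_mul _
    have h1 := hdet (Fin.cons (fun z => w z - ∑ l, c l * u l z) u) (by
      intro j
      refine Fin.cases ?_ (fun i => ?_) j
      · simpa using hwd
      · simpa using hu i) (Fin.cons κ k)
    rw [Matrix.det_succ_column_zero, Fin.sum_univ_succ] at h1
    simp only [Matrix.of_apply, Fin.cons_zero, Fin.cons_succ, Fin.val_zero, pow_zero, one_mul] at h1
    rw [sum_eq_zero (fun i _ => by rw [hz i]; ring), add_zero] at h1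
    have h2 : (Matrix.of fun i j : Fin (r+1) =>
        ∫ z, G z * ((Fin.cons (fun z => w z - ∑ l, c l * u l z) u : Fin (r+1) → ℂ → ℂ) j z *
          (conj z) ^ ((Fin.cons κ k : Fin (r+1) → ℕ) i)) ∂dA).submatrix
          (Fin.succAbove 0) Fin.succ = m := by
      ext i j
      simp [hm]
    rw [h2] at h1
    exact (mul_eq_zero.1 h1).resolve_right hΔ
  have hI : ∀ i j, Integrable (fun z => G z * (u j z * (conj z) ^ (k i))) dA := fun i j =>
    int_cont hG ((hu j).continuous.mul (conj_cont _))
  set A : ℂ → Matrix (Fin r) (Fin r) ℂ := fun ξ => Matrix.of fun i j =>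
    ∫ z, (G z * (u j z * (conj z) ^ (k i))) * Complex.exp (ξ * z) ∂dA with hA
  set B : ℂ → Matrix (Fin r) (Fin r) ℂ := fun η => Matrix.of fun i j =>
    ∫ z, (G z * (u j z * (conj z) ^ (k i))) * Complex.exp (η * (-conj z)) ∂dA with hB
  set J : ℂ → Matrix (Fin r) (Fin r) ℂ := fun ξ => Matrix.of fun i j =>
    ∫ z, (G z * (u j z * (conj z) ^ (k i))) * Complex.exp (ξ * z - conj ξ * conj z) ∂dA with hJ
  have hfac : ∀ ξ, J ξ = B (conj ξ) * (m⁻¹ * A ξ) := by
    intro ξ
    ext i j
    have hw : Differentiable ℂ (fun z => Complex.exp (ξ * z) * u j z) := by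
      have : Differentiable ℂ (fun z => Complex.exp (ξ * z)) := by fun_prop
      exact this.mul (hu j)
    have hc : (fun l => (m⁻¹ * A ξ) l j) = m⁻¹.mulVec (fun i => ∫ z, G z *
        ((Complex.exp (ξ * z) * u j z) * (conj z) ^ (k i)) ∂dA) := by
      ext l
      simp only [Matrix.mul_apply, Matrix.mulVec, dotProduct, hA, Matrix.of_apply]
      apply sum_congr rfl
      intro i' _
      congr 1
      apply integral_congr_ae
      filter_upwards with z
      ring
    have h1 := hcorr _ hw _ hc
    have hwd : Continuous (fun z => (Complex.exp (ξ * z) * u j z -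
        ∑ l, (m⁻¹ * A ξ) l j * u l z) * (conj z) ^ (k i)) := by
      apply Continuous.mul _ (conj_cont _)
      apply hw.continuous.sub
      apply continuous_finsetSum
      intro l _
      exact continuous_const.mul (hu l).continuous
    have h2 := exp_zero' (int_cont hG hwd) (by
      intro κ
      rw [← h1 (k i + κ)]
      apply integral_congr_ae
      filter_upwards with z
      ring) (-(conj ξ))
    have e : ∀ z, G z * ((Complex.exp (ξ * z) * u j z - ∑ l, (m⁻¹ * A ξ) l j * u l z) *
        (conj z) ^ (k i)) * Complex.exp (-(conj ξ) * conj z) =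
        (G z * (u j z * (conj z) ^ (k i))) * Complex.exp (ξ * z - conj ξ * conj z) -
        ∑ l, (m⁻¹ * A ξ) l j * ((G z * (u l z * (conj z) ^ (k i))) *
          Complex.exp (conj ξ * (-conj z))) := by
      intro z
      have e1 : Complex.exp (ξ * z - conj ξ * conj z) =
          Complex.exp (ξ * z) * Complex.exp (-(conj ξ) * conj z) := by
        rw [← Complex.exp_add]; ring_nf
      have e2 : conj ξ * (-conj z) = -(conj ξ) * conj z := by ring
      have e3 : ∑ l, (m⁻¹ * A ξ) l j * ((G z * (u l z * (conj z) ^ (k i))) *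
          Complex.exp (-(conj ξ) * conj z)) = G z * (∑ l, (m⁻¹ * A ξ) l j * u l z) *
            (conj z) ^ (k i) * Complex.exp (-(conj ξ) * conj z) := by
        rw [mul_sum, sum_mul, sum_mul]
        apply sum_congr rfl
        intro l _
        ring
      rw [e1, e2, e3]
      ring
    have iB : ∀ l, Integrable (fun z => (G z * (u l z * (conj z) ^ (k i))) *
          Complex.exp (conj ξ * (-conj z))) dA := by
      intro l
      apply int_cont (hI i l)
      fun_prop
    have iJ : Integrable (fun z => (G z * (u j z * (conj z) ^ (k i))) *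
        Complex.exp (ξ * z - conj ξ * conj z)) dA := by
      apply int_cont (hI i j)
      fun_prop
    rw [integral_congr_ae (Eventually.of_forall e), integral_sub iJ
      (integrable_finsetSum _ fun l _ => (iB l).const_mul _), integral_finsetSum _
      (fun l _ => (iB l).const_mul _), sub_eq_zero] at h2
    rw [Matrix.mul_apply]
    change ∫ z, (G z * (u j z * (conj z) ^ (k i))) * Complex.exp (ξ * z - conj ξ * conj z) ∂dA = _
    rw [h2]
    apply sum_congr rfl
    intro l _
    rw [integral_const_mul, mul_comm]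
    rfl
  have hAd : Differentiable ℂ (fun ξ => (A ξ).det) := by
    simp only [Matrix.det_apply]
    apply Differentiable.fun_sum
    intro σ _
    apply Differentiable.const_smul
    apply Differentiable.fun_finsetProd
    intro i _
    exact diff_exp (hI _ _) continuous_id (fun z hz => by
      rw [Metric.mem_ball, dist_zero_right] at hz
      exact hz.le)
  have hBd : Differentiable ℂ (fun ξ => (B ξ).det) := by
    simp only [Matrix.det_apply]
    apply Differentiable.fun_sum
    intro σ _
    apply Differentiable.const_smul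
    apply Differentiable.fun_finsetProd
    intro i _
    exact diff_exp (φ := fun z => -conj z) (hI _ _) (by fun_prop) (fun z hz => by
      rw [Metric.mem_ball, dist_zero_right] at hz
      rw [norm_neg, Complex.norm_conj]
      exact hz.le)
  have hBd2 : Differentiable ℂ (fun ξ => conj ((B (conj ξ)).det)) := by
    intro ξ
    have := (hBd (conj ξ)).conj_conj
    rw [Complex.conj_conj] at this
    exact this
  have hJt : Tendsto (fun ξ => (J ξ).det) (cocompact ℂ) (𝓝 0) := by
    have h1 : Tendsto J (cocompact ℂ) (𝓝 0) := by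
      exact tendsto_pi_nhds.2 fun i => tendsto_pi_nhds.2 fun j => rl
    have h2 : Tendsto (fun M : Matrix (Fin r) (Fin r) ℂ => M.det) (𝓝 0)
        (𝓝 ((0 : Matrix (Fin r) (Fin r) ℂ).det)) :=
      (continuous_id.matrix_det).tendsto 0
    have : Nonempty (Fin r) := ⟨⟨0, by omega⟩⟩
    rw [Matrix.det_zero] at h2
    exact h2.comp h1
  have hPt : Tendsto (fun ξ => (A ξ).det * conj ((B (conj ξ)).det)) (cocompact ℂ) (𝓝 0) := by
    rw [tendsto_zero_iff_norm_tendsto_zero]
    have h1 := (tendsto_zero_iff_norm_tendsto_zero.1 hJt).const_mul ‖m.det‖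
    rw [mul_zero] at h1
    refine h1.congr ?_
    intro ξ
    rw [hfac ξ, Matrix.det_mul, Matrix.det_mul, Matrix.det_nonsing_inv, Ring.inverse_eq_inv',
      norm_mul, norm_mul, norm_inv, norm_mul, Complex.norm_conj]
    have : ‖m.det‖ ≠ 0 := norm_ne_zero_iff.2 hΔ
    field_simp
  have h0 := (hAd.mul hBd2).apply_eq_of_tendsto_cocompact 0 hPt
  have hA0 : A 0 = m := by
    ext i j
    simp [hA, hm]
  have hB0 : B 0 = m := by
    ext i j
    simp [hB, hm]
  have h0' : (A 0).det * conj ((B (conj 0)).det) = 0 := h0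
  rw [map_zero, hA0, hB0] at h0'
  rcases mul_eq_zero.1 h0' with h | h
  · exact hΔ h
  · exact hΔ ((map_eq_zero _).1 h)

/-- Luecking's theorem for bounded symbols, in determinant form. -/
theorem luecking {G : ℂ → ℂ} (hG : Integrable G dA) : ∀ N : ℕ,
    (∀ u : Fin N → ℂ → ℂ, (∀ j, Differentiable ℂ (u j)) → ∀ k : Fin N → ℕ,
      Matrix.det (Matrix.of fun i j : Fin N =>
        ∫ z, G z * (u j z * (conj z) ^ (k i)) ∂dA) = 0) → ∀ᵐ z ∂dA, G z = 0 := by
  intro N
  induction N with
  | zero =>
    intro h
    have := h (fun j => 0) (fun j => differentiable_const _) (fun j => 0)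
    rw [Matrix.det_isEmpty] at this
    exact absurd this one_ne_zero
  | succ N ih =>
    intro h
    rcases Nat.eq_zero_or_pos N with hN | hN
    · subst hN
      apply density2 hG
      intro a b
      have := h (fun _ z => z ^ a) (fun _ => differentiable_pow a) (fun _ => b)
      rw [Matrix.det_fin_one] at this
      exact this
    · by_cases hall : ∀ u : Fin N → ℂ → ℂ, (∀ j, Differentiable ℂ (u j)) → ∀ k : Fin N → ℕ,
        Matrix.det (Matrix.of fun i j : Fin N =>
          ∫ z, G z * (u j z * (conj z) ^ (k i)) ∂dA) = 0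
      · exact ih hall
      · push Not at hall
        obtain ⟨u, hu, k, hk⟩ := hall
        exact (lk_contra hG hN h u hu k hk).elim

end Pool.Agent.R440.TP
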