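import Pool.Agent.R440.TP.PB
import Pool.Agent.R440.TP.LK

open MeasureTheory Set Finset
open scoped ENNReal ContDiff ComplexConjugate InnerProductSpace

namespace Pool.Agent.R440.TP

theorem ae_ne_zero : ∀ᵐ z ∂dA, z ≠ 0 := by
  rw [dA]
  apply Measure.ae_smul_measure
  apply ae_restrict_of_ae
  have := (Set.countable_singleton (0:ℂ)).ae_notMem (volume : Measure ℂ)
  filter_upwards [this] with z hz
  simpa using hz

theorem main_f {n : ℕ} (hn : 1 ≤ n) {f g : ℂ → ℂ} (hf : MemLp f ∞ dA) (hg : MemLp g ∞ dA)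
    (hr : Radial f)
    (hfin : FiniteDimensional ℂ (LinearMap.range (toep n f hf ∘ₗ toep n g hg))) :
    (∀ᵐ z ∂dA, f z = 0) ∨ (∀ᵐ z ∂dA, g z = 0) := by
  by_cases hf0 : ∀ᵐ z ∂dA, f z = 0
  · exact Or.inl hf0
  right
  obtain ⟨N, hN⟩ := dets_all hn hf hg hr hf0 hfin
  have hG : Integrable (fun z => g z * ((‖z‖ ^ 2 : ℝ) : ℂ)) dA := by
    have := int_mo hg 1
    simpa using this
  have h := luecking hG N hN
  filter_upwards [h, ae_ne_zero] with z h1 h2
  rcases mul_eq_zero.1 h1 with h3 | h3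
  · exact h3
  · exfalso
    have : ‖z‖ ^ 2 = 0 := by exact_mod_cast h3
    exact h2 (norm_eq_zero.1 (pow_eq_zero_iff two_ne_zero |>.1 this))

theorem memLp_conj {g : ℂ → ℂ} (hg : MemLp g ∞ dA) : MemLp (fun z => conj (g z)) ∞ dA := hg.star

theorem radial_conj {g : ℂ → ℂ} (hg : Radial g) : Radial (fun z => conj (g z)) := by
  obtain ⟨F, hF⟩ := hg
  refine ⟨fun r => conj (F r), ?_⟩
  filter_upwards [hF] with z hz
  rw [hz]

theorem toep_adj {n : ℕ} {f : ℂ → ℂ} (hf : MemLp f ∞ dA) (e u : A2 n) :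
    ⟪e, toep n f hf u⟫_ℂ = ⟪toep n (fun z => conj (f z)) (memLp_conj hf) e, u⟫_ℂ := by
  rw [← inner_conj_symm (toep n (fun z => conj (f z)) (memLp_conj hf) e) u, toep_inner,
    toep_inner, ← integral_conj]
  apply integral_congr_ae
  filter_upwards with z
  simp only [map_mul, Complex.conj_conj]
  ring

theorem adj_finite {n : ℕ} {f g : ℂ → ℂ} (hf : MemLp f ∞ dA) (hg : MemLp g ∞ dA)
    (hfin : FiniteDimensional ℂ (LinearMap.range (toep n f hf ∘ₗ toep n g hg))) :
    FiniteDimensional ℂ (LinearMap.range (toep n (fun z => conj (g z)) (memLp_conj hg) ∘ₗ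
      toep n (fun z => conj (f z)) (memLp_conj hf))) := by
  set R := toep n f hf ∘ₗ toep n g hg with hR
  set R' := toep n (fun z => conj (g z)) (memLp_conj hg) ∘ₗ
      toep n (fun z => conj (f z)) (memLp_conj hf) with hR'
  have hadj : ∀ e h : A2 n, ⟪R' e, h⟫_ℂ = ⟪e, R h⟫_ℂ := by
    intro e h
    have h1 : ⟪e, R h⟫_ℂ = ⟪e, toep n f hf (toep n g hg h)⟫_ℂ := rfl
    rw [h1, toep_adj hf, toep_adj hg]
    rfl
  have hle : LinearMap.range R' ≤ (LinearMap.range R).map R' := by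
    rintro _ ⟨e, rfl⟩
    refine ⟨((LinearMap.range R).orthogonalProjectionOnto e : A2 n), Subtype.mem _, ?_⟩
    apply ext_inner_right ℂ
    intro h
    rw [hadj, hadj]
    have := Submodule.inner_orthogonalProjectionOnto_eq_of_mem_right
      (⟨R h, LinearMap.mem_range_self R h⟩ : LinearMap.range R) e
    exact this
  exact Submodule.finiteDimensional_of_le hle

theorem main_all {n : ℕ} (hn : 1 ≤ n) {f g : ℂ → ℂ} (hf : MemLp f ∞ dA) (hg : MemLp g ∞ dA)
    (hr : Radial f ∨ Radial g)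
    (hfin : FiniteDimensional ℂ (LinearMap.range (toep n f hf ∘ₗ toep n g hg))) :
    (∀ᵐ z ∂dA, f z = 0) ∨ (∀ᵐ z ∂dA, g z = 0) := by
  rcases hr with hr | hr
  · exact main_f hn hf hg hr hfin
  · rcases main_f hn (memLp_conj hg) (memLp_conj hf) (radial_conj hr) (adj_finite hf hg hfin)
      with h | h
    · right
      filter_upwards [h] with z hz
      exact (map_eq_zero _).1 hz
    · left
      filter_upwards [h] with z hz
      exact (map_eq_zero _).1 hz

end Pool.Agent.R440.TP
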