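import Pool.Agent.R440.TP.Modes
import Pool.Agent.R440.TP.Alg

open MeasureTheory Set Finset
open scoped ENNReal ContDiff ComplexConjugate

namespace Pool.Agent.R440.TP

theorem muntz_int {X : Type*} [MeasurableSpace X] {μ : Measure X} {W : X → ℂ} {ρ : X → ℝ}
    (hW : Integrable W μ) (hρm : Measurable ρ) (hρ : ∀ᵐ x ∂μ, ρ x ∈ Set.Icc (0:ℝ) 1) (S : Set ℕ)
    (hS : ¬ Summable (fun s : S => (1:ℝ) / (s:ℕ)))
    (h : ∀ s ∈ S, ∫ x, W x * ((ρ x : ℝ) : ℂ) ^ s ∂μ = 0) (q : ℕ) (hq : 1 ≤ q) :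
    ∫ x, W x * ((ρ x : ℝ) : ℂ) ^ q ∂μ = 0 := by
  have hint : ∀ s : ℕ, Integrable (fun x => W x * ((ρ x : ℝ) : ℂ) ^ s) μ := by
    intro s
    have h1 : AEStronglyMeasurable (fun x => ((ρ x : ℝ) : ℂ) ^ s) μ := by
      apply Measurable.aestronglyMeasurable
      fun_prop
    have := hW.bdd_mul (c := 1) h1 (by
      filter_upwards [hρ] with x hx
      rw [norm_pow, Complex.norm_real, Real.norm_of_nonneg hx.1]
      exact pow_le_one₀ hx.1 hx.2)
    refine this.congr ?_
    filter_upwards with x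
    ring
  have hle : ∀ ε > 0, ‖∫ x, W x * ((ρ x : ℝ) : ℂ) ^ q ∂μ‖ ≤ ε * ∫ x, ‖W x‖ ∂μ := by
    intro ε hε
    obtain ⟨Λ, hΛ⟩ := muntz_small q S hS ε hε
    rcases hΛ with ⟨hΛ1, hΛ2⟩ | h0
    swap
    · omega
    obtain ⟨a, ha⟩ := muntz_poly q hq Λ (fun l hl => by have := (hΛ1 l hl).2; omega)
      (fun hqm => absurd (hΛ1 q hqm).2 (lt_irrefl _))
    have e1 : ∫ x, W x * ((ρ x : ℝ) : ℂ) ^ q ∂μ =
        ∫ x, W x * (((ρ x) ^ q - ∑ l ∈ Λ, a l * (ρ x) ^ l : ℝ) : ℂ) ∂μ := by
      have e2 : ∀ x, W x * (((ρ x) ^ q - ∑ l ∈ Λ, a l * (ρ x) ^ l : ℝ) : ℂ) =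
          W x * ((ρ x : ℝ) : ℂ) ^ q - ∑ l ∈ Λ, (a l : ℂ) * (W x * ((ρ x : ℝ) : ℂ) ^ l) := by
        intro x
        push_cast
        rw [mul_sub, mul_sum]
        congr 1
        apply sum_congr rfl
        intro l _
        ring
      rw [integral_congr_ae (Filter.Eventually.of_forall e2), integral_sub (hint q),
        integral_finsetSum]
      · rw [sum_eq_zero, sub_zero]
        intro l hl
        rw [integral_const_mul, h l (hΛ1 l hl).1, mul_zero]
      · intro l _
        exact (hint l).const_mul _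
      · apply integrable_finsetSum
        intro l _
        exact (hint l).const_mul _
    rw [e1, ← integral_const_mul]
    apply norm_integral_le_of_norm_le (hW.norm.const_mul ε)
    filter_upwards [hρ] with x hx
    rw [norm_mul, Complex.norm_real, Real.norm_eq_abs, mul_comm]
    exact mul_le_mul_of_nonneg_right ((ha _ hx).trans hΛ2) (norm_nonneg _)
  rw [← norm_eq_zero]
  apply le_antisymm _ (norm_nonneg _)
  apply le_of_forall_pos_le_add
  intro ε hε
  have hI : 0 ≤ ∫ x, ‖W x‖ ∂μ := integral_nonneg fun _ => norm_nonneg _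
  have := hle (ε / (∫ x, ‖W x‖ ∂μ + 1)) (by positivity)
  refine this.trans ?_
  rw [zero_add, div_mul_eq_mul_div, div_le_iff₀ (by positivity)]
  nlinarith

theorem det_muntz {N : ℕ} (w : Fin N → Fin N → ℂ → ℂ) (hw : ∀ i j, Integrable (w i j) dA)
    (S : Set ℕ) (hS : ¬ Summable (fun s : S => (1:ℝ) / (s:ℕ)))
    (h : ∀ s ∈ S, Matrix.det (Matrix.of fun i j : Fin N =>
      ∫ z, w i j z * ((‖z‖ ^ 2 : ℝ) : ℂ) ^ s ∂dA) = 0) (q : ℕ) (hq : 1 ≤ q) :
    Matrix.det (Matrix.of fun i j : Fin N => ∫ z, w i j z * ((‖z‖ ^ 2 : ℝ) : ℂ) ^ q ∂dA) = 0 := by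
  set μ : Measure (Fin N → ℂ) := Measure.pi (fun _ => dA) with hμ
  set W : (Fin N → ℂ) → ℂ := fun x =>
    ∑ σ : Equiv.Perm (Fin N), ((Equiv.Perm.sign σ : ℤ) : ℂ) * ∏ i, w (σ i) i (x i) with hW
  set ρ : (Fin N → ℂ) → ℝ := fun x => ∏ i, ‖x i‖ ^ 2 with hρ
  have hWi : Integrable W μ := by
    apply integrable_finsetSum
    intro σ _
    apply Integrable.const_mul
    exact Integrable.fintype_prod (fun i => hw (σ i) i)
  have key : ∀ s : ℕ, Matrix.det (Matrix.of fun i j : Fin N =>
      ∫ z, w i j z * ((‖z‖ ^ 2 : ℝ) : ℂ) ^ s ∂dA) = ∫ x, W x * ((ρ x : ℝ) : ℂ) ^ s ∂μ := by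
    intro s
    have hi : ∀ i j, Integrable (fun z => w i j z * ((‖z‖ ^ 2 : ℝ) : ℂ) ^ s) dA := by
      intro i j
      have := (hw i j).bdd_mul (c := 1) (f := fun z : ℂ => ((‖z‖ ^ 2 : ℝ) : ℂ) ^ s)
        (nsq_cont s).aestronglyMeasurable (by
        filter_upwards [ae_ball] with z hz
        rw [Metric.mem_ball, dist_zero_right] at hz
        rw [norm_pow, Complex.norm_real, Real.norm_of_nonneg (by positivity)]
        apply pow_le_one₀ (by positivity)
        apply pow_le_one₀ (norm_nonneg _) hz.le)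
      refine this.congr ?_
      filter_upwards with x
      ring
    rw [Matrix.det_apply]
    have e1 : ∀ x, W x * ((ρ x : ℝ) : ℂ) ^ s = ∑ σ : Equiv.Perm (Fin N),
        ((Equiv.Perm.sign σ : ℤ) : ℂ) *
          ∏ i, (fun z => w (σ i) i z * ((‖z‖ ^ 2 : ℝ) : ℂ) ^ s) (x i) := by
      intro x
      simp only [hW, hρ]
      rw [sum_mul]
      apply sum_congr rfl
      intro σ _
      rw [mul_assoc, Complex.ofReal_prod, ← Finset.prod_pow, ← Finset.prod_mul_distrib]
    rw [integral_congr_ae (Filter.Eventually.of_forall e1), integral_finsetSum]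
    · apply sum_congr rfl
      intro σ _
      rw [integral_const_mul, integral_fintype_prod_eq_prod
        (fun i z => w (σ i) i z * ((‖z‖ ^ 2 : ℝ) : ℂ) ^ s)]
      simp only [Matrix.of_apply, Units.smul_def, zsmul_eq_mul]
    · intro σ _
      apply Integrable.const_mul
      exact Integrable.fintype_prod (fun i => hi (σ i) i)
  rw [key]
  apply muntz_int hWi _ _ S hS _ q hq
  · simp only [hρ]
    apply Finset.measurable_prod
    intro i _
    fun_prop
  · have : ∀ᵐ x ∂μ, ∀ i, x i ∈ Metric.ball (0:ℂ) 1 := by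
      rw [ae_all_iff]
      intro i
      exact (Measure.quasiMeasurePreserving_eval (fun _ : Fin N => dA) i).ae ae_ball
    filter_upwards [this] with x hx
    constructor
    · exact prod_nonneg fun i _ => by positivity
    · apply prod_le_one
      · intro i _; positivity
      · intro i _
        have := hx i
        rw [Metric.mem_ball, dist_zero_right] at this
        apply pow_le_one₀ (norm_nonneg _) this.le
  · intro s hs
    rw [← key]
    exact h s hs

theorem density1 {h : ℝ → ℂ} (hh : Integrable h mt)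
    (h0 : ∀ m : ℕ, ∫ t, h t * (t:ℂ) ^ m ∂mt = 0) : ∀ᵐ t ∂mt, h t = 0 := by
  have hloc : LocallyIntegrableOn h (Ioo 0 1) volume := IntegrableOn.locallyIntegrableOn hh
  have hint : ∀ m : ℕ, Integrable (fun t : ℝ => h t * (t:ℂ) ^ m) mt := by
    intro m
    have h1 : AEStronglyMeasurable (fun t : ℝ => (t:ℂ) ^ m) mt :=
      Continuous.aestronglyMeasurable (by fun_prop)
    have := hh.bdd_mul (c := 1) h1 (by
      filter_upwards [ae_mt] with x hx
      rw [norm_pow, Complex.norm_real, Real.norm_of_nonneg hx.1.le]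
      exact pow_le_one₀ hx.1.le hx.2.le)
    refine this.congr ?_
    filter_upwards with x
    ring
  have hpoly : ∀ p : Polynomial ℝ, Integrable (fun t : ℝ => ((p.eval t : ℝ) : ℂ) * h t) mt ∧
      ∫ t, ((p.eval t : ℝ) : ℂ) * h t ∂mt = 0 := by
    intro p
    have e : (fun t : ℝ => ((p.eval t : ℝ) : ℂ) * h t) = fun t : ℝ =>
        ∑ i ∈ Finset.range (p.natDegree + 1), (p.coeff i : ℂ) * (h t * (t:ℂ) ^ i) := by
      ext t
      rw [Polynomial.eval_eq_sum_range]
      push_cast
      rw [sum_mul]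
      apply sum_congr rfl
      intro i _
      ring
    rw [e]
    constructor
    · apply integrable_finsetSum
      intro i _
      exact (hint i).const_mul _
    · rw [integral_finsetSum]
      · apply sum_eq_zero
        intro i _
        rw [integral_const_mul, h0, mul_zero]
      · intro i _
        exact (hint i).const_mul _
  have := isOpen_Ioo.ae_eq_zero_of_integral_contDiff_smul_eq_zero hloc (by
    intro g hg1 hg2 hg3
    have hg : TF g := ⟨hg1, hg2, hg3⟩
    rw [← setIntegral_eq_integral_of_forall_compl_eq_zero (s := Ioo (0:ℝ) 1)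
      (by
        intro t ht
        rw [image_eq_zero_of_notMem_tsupport fun h => ht (hg3 h), zero_smul])]
    change ∫ t, g t • h t ∂mt = 0
    have hgi : Integrable (fun t => g t • h t) mt :=
      (hg.integrable_smul hloc).restrict
    have hle : ∀ ε > 0, ‖∫ t, g t • h t ∂mt‖ ≤ ε * ∫ t, ‖h t‖ ∂mt := by
      intro ε hε
      obtain ⟨p, hp⟩ := exists_polynomial_near_of_continuousOn 0 1 g hg1.continuous.continuousOn
        ε hε
      have e1 : ∫ t, g t • h t ∂mt = ∫ t, (g t • h t - ((p.eval t : ℝ) : ℂ) * h t) ∂mt := by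
        rw [integral_sub hgi (hpoly p).1, (hpoly p).2, sub_zero]
      rw [e1, ← integral_const_mul]
      apply norm_integral_le_of_norm_le (hh.norm.const_mul ε)
      filter_upwards [ae_mt] with t ht
      rw [Complex.real_smul, ← sub_mul, norm_mul, ← Complex.ofReal_sub, Complex.norm_real,
        Real.norm_eq_abs, abs_sub_comm]
      exact mul_le_mul_of_nonneg_right (hp t ⟨ht.1.le, ht.2.le⟩).le (norm_nonneg _)
    rw [← norm_eq_zero]
    apply le_antisymm _ (norm_nonneg _)
    apply le_of_forall_pos_le_add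
    intro ε hε
    have hI : 0 ≤ ∫ t, ‖h t‖ ∂mt := integral_nonneg fun _ => norm_nonneg _
    have := hle (ε / (∫ t, ‖h t‖ ∂mt + 1)) (by positivity)
    refine this.trans ?_
    rw [zero_add, div_mul_eq_mul_div, div_le_iff₀ (by positivity)]
    nlinarith)
  have h2 : ∀ᵐ t ∂mt, t ∈ Ioo (0:ℝ) 1 → h t = 0 := ae_restrict_of_ae this
  filter_upwards [h2, ae_mt] with t h1 h3
  exact h1 h3

theorem radial_zero {f : ℂ → ℂ} (hf : MemLp f ∞ dA) (hr : Radial f) {n k0 : ℕ}
    (hs : ∀ k ≥ k0, Sing (Mo f) n k) : ∀ᵐ z ∂dA, f z = 0 := by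
  obtain ⟨F, hF⟩ := hr
  obtain ⟨q, k1, ⟨j0, hj0, hq0⟩, hq⟩ := sing_rec n k0 hs
  set P : Polynomial ℂ := ∑ j ∈ Finset.range n, Polynomial.C (q j) * Polynomial.X ^ j with hP
  have hPe : ∀ t : ℂ, P.eval t = ∑ j ∈ Finset.range n, q j * t ^ j := by
    intro t
    rw [hP, Polynomial.eval_finsetSum]
    simp
  have hP0 : P ≠ 0 := by
    intro h
    have : P.coeff j0 = q j0 := by
      rw [hP, Polynomial.finsetSum_coeff]
      simp only [Polynomial.coeff_C_mul, Polynomial.coeff_X_pow]
      rw [Finset.sum_eq_single j0]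
      · simp
      · intro b _ hb
        rw [if_neg (Ne.symm hb), mul_zero]
      · intro h
        exact absurd (Finset.mem_range.2 hj0) h
    rw [h, Polynomial.coeff_zero] at this
    exact hq0 this.symm
  have hWi : Integrable (fun t : ℝ => F (√t) * (t:ℂ)^k1 * P.eval (t:ℂ)) mt := by
    have e : (fun t : ℝ => F (√t) * (t:ℂ)^k1 * P.eval (t:ℂ)) = fun t : ℝ =>
        ∑ j ∈ Finset.range n, q j * (F (√t) * (t:ℂ)^(k1+j)) := by
      ext t
      rw [hPe, mul_sum]
      apply sum_congr rfl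
      intro j _
      ring
    rw [e]
    apply integrable_finsetSum
    intro j _
    exact (rad_int hf hF _).1.const_mul _
  have hW : ∀ᵐ t : ℝ ∂mt, F (√t) * (t:ℂ)^k1 * P.eval (t:ℂ) = 0 := by
    apply density1 hWi
    intro m
    have e : (fun t : ℝ => F (√t) * (t:ℂ)^k1 * P.eval (t:ℂ) * (t:ℂ)^m) = fun t : ℝ =>
        ∑ j ∈ Finset.range n, q j * (F (√t) * (t:ℂ)^(k1+m+j)) := by
      ext t
      rw [hPe, mul_sum, sum_mul]
      apply sum_congr rfl
      intro j _
      ring
    rw [e, integral_finsetSum]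
    · rw [← hq (k1+m) (by omega)]
      apply sum_congr rfl
      intro j _
      rw [integral_const_mul, (rad_int hf hF _).2]
    · intro j _
      exact (rad_int hf hF _).1.const_mul _
  have hroots : ∀ᵐ t : ℝ ∂mt, P.eval (t:ℂ) ≠ 0 := by
    have hfin : {t : ℝ | P.eval (t:ℂ) = 0}.Finite := by
      have h1 : {z : ℂ | P.eval z = 0}.Finite := by
        refine (P.roots.toFinset.finite_toSet).subset ?_
        intro z hz
        simp only [Finset.mem_coe, Multiset.mem_toFinset]
        exact (Polynomial.mem_roots hP0).2 hz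
      exact h1.preimage (Complex.ofReal_injective.injOn)
    have := hfin.countable.ae_notMem (volume : Measure ℝ)
    exact ae_restrict_of_ae this
  have hFz : ∀ᵐ t : ℝ ∂mt, F (√t) = 0 := by
    filter_upwards [hW, hroots, ae_mt] with t h1 h2 h3
    have ht0 : (t:ℂ) ≠ 0 := by exact_mod_cast h3.1.ne'
    rcases mul_eq_zero.1 h1 with h | h
    · rcases mul_eq_zero.1 h with h | h
      · exact h
      · exact absurd h (pow_ne_zero _ ht0)
    · exact absurd h h2
  have hni : Integrable (fun z => ((‖f z‖ : ℝ) : ℂ)) dA :=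
    (hf.integrable le_top).norm.ofReal
  have h1 : ∫ z, ((‖f z‖ : ℝ) : ℂ) ∂dA = 0 := by
    rw [tr_eq hni]
    have : ∀ᵐ t ∂mt, ∫ θ, ((‖f (Th (t, θ))‖ : ℝ) : ℂ) ∂mth = 0 := by
      filter_upwards [hFz, radial_ae hF] with t h1 h2
      have : ∀ᵐ θ ∂mth, ((‖f (Th (t, θ))‖ : ℝ) : ℂ) = 0 := by
        filter_upwards [h2] with θ h3
        rw [h3, h1]
        simp
      rw [integral_congr_ae this]
      simp
    rw [integral_congr_ae this]
    simp
  rw [integral_complex_ofReal] at h1
  have h2 : ∫ z, ‖f z‖ ∂dA = 0 := by exact_mod_cast h1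
  rw [integral_eq_zero_iff_of_nonneg (fun _ => norm_nonneg _) (hf.integrable le_top).norm] at h2
  filter_upwards [h2] with z hz
  simpa using hz

end Pool.Agent.R440.TP
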