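import Pool.Agent.R440.TP.Dbar

open MeasureTheory Set Finset
open scoped ENNReal ContDiff ComplexConjugate

namespace Pool.Agent.R440.TP

theorem ae_ball : ∀ᵐ z ∂dA, z ∈ Metric.ball (0:ℂ) 1 := by
  rw [dA]
  exact Measure.ae_smul_measure (ae_restrict_mem measurableSet_ball) _

theorem cont_top {g : ℂ → ℂ} (hg : Continuous g) : MemLp g ∞ dA := by
  obtain ⟨C, hC⟩ := (isCompact_closedBall (0:ℂ) 1).exists_bound_of_continuousOn hg.continuousOn
  apply memLp_top_of_bound hg.aestronglyMeasurable C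
  filter_upwards [ae_ball] with z hz
  exact hC z (Metric.ball_subset_closedBall hz)

theorem memLp_int {g : ℂ → ℂ} {p : ℝ≥0∞} (hg : MemLp g p dA) (hp : 1 ≤ p) : Integrable g dA :=
  hg.integrable hp

theorem mul_top {f g : ℂ → ℂ} {p : ℝ≥0∞} (hf : MemLp f ∞ dA) (hg : MemLp g p dA) :
    MemLp (fun z => f z * g z) p dA := MemLp.mul' hg hf

theorem norm_Th (t θ : ℝ) : ‖Th (t, θ)‖ = √t := by
  rw [Th, norm_mul, Complex.norm_exp_ofReal_mul_I, mul_one]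
  simp

theorem norm_sq_Th {t : ℝ} (ht : 0 ≤ t) (θ : ℝ) : ‖Th (t, θ)‖ ^ 2 = t := by
  rw [norm_Th, Real.sq_sqrt ht]

theorem ae_mt : ∀ᵐ t ∂mt, t ∈ Ioo (0:ℝ) 1 := ae_restrict_mem measurableSet_Ioo

theorem tr_int {F : ℂ → ℂ} (hF : Integrable F dA) : Integrable (fun p => F (Th p)) (mt.prod mth) :=
  mp_Th.integrable_comp_of_integrable hF

theorem tr_eq {F : ℂ → ℂ} (hF : Integrable F dA) :
    ∫ z, F z ∂dA = ∫ t, ∫ θ, F (Th (t, θ)) ∂mth ∂mt := by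
  rw [← integral_prod _ (tr_int hF), ← mp_Th.map_eq, integral_map]
  · exact Th_cont.measurable.aemeasurable
  · rw [mp_Th.map_eq]; exact hF.aestronglyMeasurable

/-- a function depending only on the modulus (almost everywhere on the disc) -/
def Radial (f : ℂ → ℂ) : Prop := ∃ F : ℝ → ℂ, ∀ᵐ z ∂dA, f z = F ‖z‖

theorem radial_ae {f : ℂ → ℂ} {F : ℝ → ℂ} (h : ∀ᵐ z ∂dA, f z = F ‖z‖) :
    ∀ᵐ t ∂mt, ∀ᵐ θ ∂mth, f (Th (t, θ)) = F (√t) := by
  have h1 : ∀ᵐ p ∂(mt.prod mth), f (Th p) = F ‖Th p‖ := mp_Th.quasiMeasurePreserving.ae h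
  have h2 := Measure.ae_ae_of_ae_prod h1
  filter_upwards [h2] with t ht
  filter_upwards [ht] with θ hθ
  rw [hθ, norm_Th]

/-- the mode function -/
noncomputable def Vm (u : ℂ → ℂ) (k : ℕ) (t : ℝ) : ℂ :=
  ∫ θ, u (Th (t, θ)) * (conj (Th (t, θ))) ^ k ∂mth

theorem conj_cont (k : ℕ) : Continuous (fun z : ℂ => (conj z) ^ k) := by fun_prop

theorem int_uconj {u : ℂ → ℂ} (hu : MemLp u 2 dA) (k : ℕ) :
    Integrable (fun z => u z * (conj z) ^ k) dA := by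
  have := (mul_top (cont_top (conj_cont k)) hu).integrable (by norm_num)
  refine this.congr ?_
  filter_upwards with z
  ring

theorem Vm_int {u : ℂ → ℂ} (hu : MemLp u 2 dA) (k : ℕ) : Integrable (Vm u k) mt :=
  (tr_int (int_uconj hu k)).integral_prod_left

/-- membership in the polyanalytic space: `∂ⁿh/∂z̄ⁿ = 0` in the sense of distributions -/
def IsPoly (n : ℕ) (h : ℂ → ℂ) : Prop :=
  ∀ φ : ℂ → ℂ, ContDiff ℝ ∞ φ → HasCompactSupport φ → tsupport φ ⊆ Metric.ball 0 1 →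
    ∫ z, h z * (dbar^[n] φ) z ∂dA = 0

theorem structure_modes {n : ℕ} {u : ℂ → ℂ} (hu : MemLp u 2 dA) (hp : IsPoly n u) (k : ℕ) :
    ∃ c : ℕ → ℂ, ∀ᵐ t ∂mt, Vm u k t = (t:ℂ) ^ k * ∑ j ∈ range n, c j * (t:ℂ) ^ j := by
  have hV : LocallyIntegrableOn (Vm u k) (Ioo 0 1) volume :=
    IntegrableOn.locallyIntegrableOn (Vm_int hu k)
  have hU : LocallyIntegrableOn (fun t : ℝ => ((t:ℂ) ^ k)⁻¹ * Vm u k t) (Ioo 0 1) volume := by
    apply hV.continuousOn_mul _ isOpen_Ioo.isLocallyClosed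
    apply ContinuousOn.inv₀ (by fun_prop)
    intro t ht
    have : (t:ℂ) ≠ 0 := by exact_mod_cast ht.1.ne'
    exact pow_ne_zero _ this
  obtain ⟨c, hc⟩ := dbr n _ hU (by
    intro χ hχ
    have h1 := hp (Ph (k+n) χ) (Ph_CF hχ _).1 (Ph_CF hχ _).2.1 (Ph_CF hχ _).2.2
    rw [Ph_iter n hχ k] at h1
    have hCF := Ph_CF (hχ.iter n) k
    have hint : Integrable (fun z => u z * Ph k (deriv^[n] χ) z) dA := by
      have := (mul_top (cont_top hCF.1.continuous) hu).integrable (by norm_num)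
      refine this.congr ?_
      filter_upwards with z
      ring
    rw [tr_eq hint] at h1
    rw [← h1, ← setIntegral_eq_integral_of_forall_compl_eq_zero (s := Ioo (0:ℝ) 1)]
    · change ∫ t, _ ∂mt = _
      apply integral_congr_ae
      filter_upwards [ae_mt] with t ht
      have ht0 : (t:ℂ) ≠ 0 := by exact_mod_cast ht.1.ne'
      rw [Vm, ← integral_const_mul, ← integral_smul]
      apply integral_congr_ae
      filter_upwards with θ
      have hn : ‖Th (t, θ)‖ ^ 2 = t := norm_sq_Th ht.1.le θ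
      have hne : Th (t, θ) ≠ 0 := by
        intro h0
        rw [h0] at hn
        simp at hn
        exact ht.1.ne hn
      have hmul : Th (t, θ) * conj (Th (t, θ)) = (t:ℂ) := by
        rw [Complex.mul_conj, Complex.normSq_eq_norm_sq, hn]
      have e : (conj (Th (t, θ))) ^ k = (t:ℂ)^k * ((Th (t, θ))⁻¹) ^ k := by
        rw [← hmul, mul_pow, inv_pow]
        field_simp
      simp only [Ph, Complex.real_smul]
      rw [hn, e]
      field_simp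
    · intro t ht
      have : deriv^[n] χ t = 0 :=
        image_eq_zero_of_notMem_tsupport fun h => ht ((hχ.iter n).2.2 h)
      rw [this, zero_smul])
  refine ⟨c, ?_⟩
  have hc' : ∀ᵐ t ∂mt, t ∈ Ioo (0:ℝ) 1 →
      ((t:ℂ) ^ k)⁻¹ * Vm u k t = ∑ j ∈ range n, c j * (t:ℂ) ^ j := ae_restrict_of_ae hc
  filter_upwards [hc', ae_mt] with t h1 h2
  have ht0 : (t:ℂ) ≠ 0 := by exact_mod_cast h2.1.ne'
  rw [← h1 h2]
  field_simp

/-- radial moments -/
noncomputable def Mo (f : ℂ → ℂ) (s : ℕ) : ℂ := ∫ z, f z * ((‖z‖ ^ 2 : ℝ) : ℂ) ^ s ∂dA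

theorem nsq_cont (s : ℕ) : Continuous (fun z : ℂ => ((‖z‖ ^ 2 : ℝ) : ℂ) ^ s) := by fun_prop

theorem int_mo {f : ℂ → ℂ} (hf : MemLp f ∞ dA) (s : ℕ) :
    Integrable (fun z => f z * ((‖z‖ ^ 2 : ℝ) : ℂ) ^ s) dA :=
  (mul_top hf (cont_top (nsq_cont s))).integrable (by simp)

theorem rad_int {f : ℂ → ℂ} (hf : MemLp f ∞ dA) {F : ℝ → ℂ} (h : ∀ᵐ z ∂dA, f z = F ‖z‖)
    (s : ℕ) : Integrable (fun t : ℝ => F (√t) * (t:ℂ) ^ s) mt ∧
      Mo f s = ∫ t, F (√t) * (t:ℂ) ^ s ∂mt := by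
  have h1 : ∀ᵐ t ∂mt, ∫ θ, f (Th (t, θ)) * ((‖Th (t, θ)‖ ^ 2 : ℝ) : ℂ) ^ s ∂mth =
      F (√t) * (t:ℂ)^s := by
    filter_upwards [radial_ae h, ae_mt] with t ht htI
    have : ∀ᵐ θ ∂mth, f (Th (t, θ)) * ((‖Th (t, θ)‖ ^ 2 : ℝ) : ℂ) ^ s = F (√t) * (t:ℂ)^s := by
      filter_upwards [ht] with θ hθ
      rw [hθ, norm_sq_Th htI.1.le]
    rw [integral_congr_ae this]
    simp
  constructor
  · exact (tr_int (int_mo hf s)).integral_prod_left.congr h1
  · rw [Mo, tr_eq (int_mo hf s)]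
    exact integral_congr_ae h1

theorem pair_modes {n : ℕ} {u : ℂ → ℂ} (hu : MemLp u 2 dA) {k : ℕ} {c : ℕ → ℂ}
    (hc : ∀ᵐ t ∂mt, Vm u k t = (t:ℂ) ^ k * ∑ j ∈ range n, c j * (t:ℂ) ^ j)
    {f : ℂ → ℂ} (hf : MemLp f ∞ dA) (hr : Radial f) (d : ℕ) :
    ∫ z, f z * u z * ((conj z) ^ k * ((‖z‖ ^ 2 : ℝ) : ℂ) ^ d) ∂dA =
      ∑ j ∈ range n, c j * Mo f (k + d + j) := by
  obtain ⟨F, hF⟩ := hr
  have hint : Integrable (fun z => f z * u z * ((conj z) ^ k * ((‖z‖ ^ 2 : ℝ) : ℂ) ^ d)) dA := by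
    have h1 : Continuous (fun z : ℂ => (conj z) ^ k * ((‖z‖ ^ 2 : ℝ) : ℂ) ^ d) :=
      (conj_cont k).mul (nsq_cont d)
    have := (mul_top (cont_top h1) (mul_top hf hu)).integrable (by norm_num)
    refine this.congr ?_
    filter_upwards with z
    ring
  rw [tr_eq hint]
  have e1 : ∀ᵐ t ∂mt, ∫ θ, f (Th (t, θ)) * u (Th (t, θ)) *
      ((conj (Th (t, θ))) ^ k * ((‖Th (t, θ)‖ ^ 2 : ℝ) : ℂ) ^ d) ∂mth =
      ∑ j ∈ range n, c j * (F (√t) * (t:ℂ) ^ (k + d + j)) := by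
    filter_upwards [radial_ae hF, ae_mt, hc] with t ht htI htc
    have : ∀ᵐ θ ∂mth, f (Th (t, θ)) * u (Th (t, θ)) *
      ((conj (Th (t, θ))) ^ k * ((‖Th (t, θ)‖ ^ 2 : ℝ) : ℂ) ^ d) =
      (F (√t) * (t:ℂ)^d) * (u (Th (t, θ)) * (conj (Th (t, θ))) ^ k) := by
      filter_upwards [ht] with θ hθ
      rw [hθ, norm_sq_Th htI.1.le]
      ring
    rw [integral_congr_ae this, integral_const_mul]
    change F (√t) * (t:ℂ)^d * Vm u k t = _
    rw [htc, mul_sum, mul_sum]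
    apply sum_congr rfl
    intro j _
    ring
  rw [integral_congr_ae e1, integral_finsetSum]
  · apply sum_congr rfl
    intro j _
    rw [integral_const_mul, (rad_int hf hF _).2]
  · intro j _
    exact ((rad_int hf hF _).1).const_mul _

end Pool.Agent.R440.TP
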