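import Pool.Agent.R440.TP.MDet

open MeasureTheory Set Finset
open scoped ENNReal ContDiff ComplexConjugate InnerProductSpace

namespace Pool.Agent.R440.TP

theorem IsPoly.congr {n : ℕ} {h h' : ℂ → ℂ} (hh : IsPoly n h) (e : h =ᵐ[dA] h') : IsPoly n h' := by
  intro φ h1 h2 h3
  rw [← hh φ h1 h2 h3]
  apply integral_congr_ae
  filter_upwards [e] with z hz
  rw [hz]

theorem int_test {u : ℂ → ℂ} (hu : MemLp u 2 dA) {ψ : ℂ → ℂ} (hψ : Continuous ψ) :
    Integrable (fun z => u z * ψ z) dA := by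
  have := (mul_top (cont_top hψ) hu).integrable (by norm_num)
  refine this.congr ?_
  filter_upwards with z
  ring

theorem isPoly_zero (n : ℕ) : IsPoly n (0 : Lp ℂ 2 dA) := by
  have : IsPoly n (0 : ℂ → ℂ) := by
    intro φ _ _ _
    simp
  exact this.congr (Lp.coeFn_zero ℂ 2 dA).symm

theorem isPoly_add {n : ℕ} {a b : Lp ℂ 2 dA} (ha : IsPoly n a) (hb : IsPoly n b) :
    IsPoly n (a + b : Lp ℂ 2 dA) := by
  have : IsPoly n (fun z => a z + b z) := by
    intro φ h1 h2 h3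
    have hc := (CF.iter (φ := φ) ⟨h1, h2, h3⟩ n).1.continuous
    have e : ∀ z, (a z + b z) * dbar^[n] φ z = a z * dbar^[n] φ z + b z * dbar^[n] φ z := by
      intro z; ring
    rw [integral_congr_ae (Filter.Eventually.of_forall e),
      integral_add (int_test (Lp.memLp a) hc) (int_test (Lp.memLp b) hc),
      ha φ h1 h2 h3, hb φ h1 h2 h3, add_zero]
  exact this.congr (Lp.coeFn_add a b).symm

theorem isPoly_smul {n : ℕ} (c : ℂ) {a : Lp ℂ 2 dA} (ha : IsPoly n a) :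
    IsPoly n (c • a : Lp ℂ 2 dA) := by
  have : IsPoly n (fun z => c * a z) := by
    intro φ h1 h2 h3
    have e : ∀ z, (c * a z) * dbar^[n] φ z = c * (a z * dbar^[n] φ z) := by
      intro z; ring
    rw [integral_congr_ae (Filter.Eventually.of_forall e), integral_const_mul,
      ha φ h1 h2 h3, mul_zero]
  apply this.congr
  filter_upwards [Lp.coeFn_smul c a] with z hz
  rw [hz]
  rfl

/-- The polyanalytic Bergman space `A²ₙ`: the functions in `L²` of the disc with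
`∂ⁿh/∂z̄ⁿ = 0` in the sense of distributions. -/
noncomputable def A2 (n : ℕ) : Submodule ℂ (Lp ℂ 2 dA) where
  carrier := {h | IsPoly n h}
  zero_mem' := isPoly_zero n
  add_mem' := isPoly_add
  smul_mem' := fun c _ ha => isPoly_smul c ha

theorem mem_A2 {n : ℕ} {h : Lp ℂ 2 dA} : h ∈ A2 n ↔ IsPoly n h := Iff.rfl

theorem inner_toLp {g : ℂ → ℂ} (hg : MemLp g 2 dA) {v : ℂ → ℂ} (hv : MemLp v 2 dA) :
    ⟪hg.toLp g, hv.toLp v⟫_ℂ = ∫ z, conj (g z) * v z ∂dA := by
  rw [L2.inner_def]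
  apply integral_congr_ae
  filter_upwards [hg.coeFn_toLp, hv.coeFn_toLp] with z h1 h2
  rw [h1, h2, RCLike.inner_apply']

theorem inner_Lp (g v : Lp ℂ 2 dA) :
    ⟪g, v⟫_ℂ = ∫ z, conj (g z) * v z ∂dA := by
  rw [L2.inner_def]
  apply integral_congr_ae
  filter_upwards with z
  rw [RCLike.inner_apply']

theorem inner_toLp_left {g : ℂ → ℂ} (hg : MemLp g 2 dA) (v : Lp ℂ 2 dA) :
    ⟪hg.toLp g, v⟫_ℂ = ∫ z, conj (g z) * v z ∂dA := by
  rw [inner_Lp]
  apply integral_congr_ae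
  filter_upwards [hg.coeFn_toLp] with z h1
  rw [h1]

theorem cont_two {g : ℂ → ℂ} (hg : Continuous g) : MemLp g 2 dA := (cont_top hg).mono_exponent le_top

theorem isClosed_A2 (n : ℕ) : IsClosed (A2 n : Set (Lp ℂ 2 dA)) := by
  have e : (A2 n : Set (Lp ℂ 2 dA)) = ⋂ φ : {φ : ℂ → ℂ // CF φ},
      {h | ⟪(cont_two (g := fun z => conj (dbar^[n] φ.1 z))
        (Complex.continuous_conj.comp (φ.2.iter n).1.continuous)).toLp _, h⟫_ℂ = 0} := by
    ext h
    simp only [SetLike.mem_coe, mem_A2, Set.mem_iInter, Set.mem_ofPred_eq]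
    constructor
    · rintro hh ⟨φ, hφ⟩
      rw [inner_toLp_left]
      rw [← hh φ hφ.1 hφ.2.1 hφ.2.2]
      apply integral_congr_ae
      filter_upwards with z
      rw [Complex.conj_conj, mul_comm]
    · intro hh φ h1 h2 h3
      have := hh ⟨φ, h1, h2, h3⟩
      rw [inner_toLp_left] at this
      rw [← this]
      apply integral_congr_ae
      filter_upwards with z
      rw [Complex.conj_conj, mul_comm]
  rw [e]
  apply isClosed_iInter
  intro φ
  exact isClosed_eq (continuous_const.inner continuous_id) continuous_const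

noncomputable instance (n : ℕ) : CompleteSpace (A2 n) := (isClosed_A2 n).completeSpace_coe

/-- the product of a bounded function and an `L²` function, as an element of `L²` -/
noncomputable def mulF (f : ℂ → ℂ) (hf : MemLp f ∞ dA) (h : Lp ℂ 2 dA) : Lp ℂ 2 dA :=
  (mul_top hf (Lp.memLp h)).toLp (fun z => f z * h z)

theorem mulF_add (f : ℂ → ℂ) (hf : MemLp f ∞ dA) (a b : Lp ℂ 2 dA) :
    mulF f hf (a + b) = mulF f hf a + mulF f hf b := by
  apply Lp.ext
  filter_upwards [(mul_top hf (Lp.memLp (a + b))).coeFn_toLp,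
    (mul_top hf (Lp.memLp a)).coeFn_toLp, (mul_top hf (Lp.memLp b)).coeFn_toLp,
    Lp.coeFn_add a b, Lp.coeFn_add ((mul_top hf (Lp.memLp a)).toLp (fun z => f z * a z))
      ((mul_top hf (Lp.memLp b)).toLp (fun z => f z * b z))] with z h1 h2 h3 h4 h5
  simp only [mulF]
  rw [h1, h5, Pi.add_apply, h2, h3, h4, Pi.add_apply]
  ring

theorem mulF_smul (f : ℂ → ℂ) (hf : MemLp f ∞ dA) (c : ℂ) (a : Lp ℂ 2 dA) :
    mulF f hf (c • a) = c • mulF f hf a := by
  apply Lp.ext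
  filter_upwards [(mul_top hf (Lp.memLp (c • a))).coeFn_toLp,
    (mul_top hf (Lp.memLp a)).coeFn_toLp, Lp.coeFn_smul c a,
    Lp.coeFn_smul c ((mul_top hf (Lp.memLp a)).toLp (fun z => f z * a z))] with z h1 h2 h3 h4
  simp only [mulF]
  rw [h1, h4, Pi.smul_apply, h2, h3, Pi.smul_apply, smul_eq_mul, smul_eq_mul]
  ring

/-- multiplication by a bounded function on `L²` -/
noncomputable def mulL (f : ℂ → ℂ) (hf : MemLp f ∞ dA) : Lp ℂ 2 dA →ₗ[ℂ] Lp ℂ 2 dA where
  toFun := mulF f hf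
  map_add' := mulF_add f hf
  map_smul' := mulF_smul f hf

theorem mulL_coe (f : ℂ → ℂ) (hf : MemLp f ∞ dA) (h : Lp ℂ 2 dA) :
    mulL f hf h =ᵐ[dA] fun z => f z * h z := (mul_top hf (Lp.memLp h)).coeFn_toLp

/-- The Toeplitz operator `T_f h = Pₙ(f h)` on the polyanalytic Bergman space `A²ₙ`. -/
noncomputable def toep (n : ℕ) (f : ℂ → ℂ) (hf : MemLp f ∞ dA) : A2 n →ₗ[ℂ] A2 n :=
  (A2 n).orthogonalProjectionOnto.toLinearMap ∘ₗ mulL f hf ∘ₗ (A2 n).subtype

theorem toep_inner {n : ℕ} {f : ℂ → ℂ} (hf : MemLp f ∞ dA) (e u : A2 n) :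
    ⟪e, toep n f hf u⟫_ℂ = ∫ z, conj ((e : Lp ℂ 2 dA) z) * (f z * (u : Lp ℂ 2 dA) z) ∂dA := by
  have h1 : ⟪e, toep n f hf u⟫_ℂ = ⟪(e : Lp ℂ 2 dA), mulL f hf u⟫_ℂ := by
    have := Submodule.inner_orthogonalProjectionOnto_eq_of_mem_left e (mulL f hf u)
    exact this
  rw [h1, inner_Lp]
  apply integral_congr_ae
  filter_upwards [mulL_coe f hf u] with z hz
  rw [hz]

/-- element of `A²ₙ` from a function -/
noncomputable def mkA {n : ℕ} {g : ℂ → ℂ} (hg : MemLp g 2 dA) (hp : IsPoly n g) : A2 n :=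
  ⟨hg.toLp g, mem_A2.2 (hp.congr hg.coeFn_toLp.symm)⟩

theorem mkA_coe {n : ℕ} {g : ℂ → ℂ} (hg : MemLp g 2 dA) (hp : IsPoly n g) :
    ((mkA hg hp : A2 n) : Lp ℂ 2 dA) =ᵐ[dA] g := hg.coeFn_toLp

theorem isPoly_mono {n d : ℕ} (hd : d < n) {p : ℂ → ℂ} (hp : Differentiable ℂ p) :
    IsPoly n (fun z => p z * (conj z) ^ d) := by
  intro φ h1 h2 h3
  have hφ : CF φ := ⟨h1, h2, h3⟩
  have := poly_mem hp d n hd φ hφ
  rw [dA, integral_smul_measure, setIntegral_eq_integral_of_forall_compl_eq_zero, this, smul_zero]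
  intro z hz
  rw [image_eq_zero_of_notMem_tsupport fun h => hz ((hφ.iter n).2.2 h), mul_zero]

theorem isPoly_sum {n : ℕ} {ι : Type*} (s : Finset ι) (F : ι → ℂ → ℂ)
    (hc : ∀ i ∈ s, Continuous (F i)) (hF : ∀ i ∈ s, IsPoly n (F i)) :
    IsPoly n (fun z => ∑ i ∈ s, F i z) := by
  intro φ h1 h2 h3
  have hφ : CF φ := ⟨h1, h2, h3⟩
  have e : ∀ z, (∑ i ∈ s, F i z) * dbar^[n] φ z = ∑ i ∈ s, F i z * dbar^[n] φ z := by
    intro z; rw [sum_mul]
  rw [integral_congr_ae (Filter.Eventually.of_forall e), integral_finsetSum]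
  · apply sum_eq_zero
    intro i hi
    exact hF i hi φ h1 h2 h3
  · intro i hi
    exact int_test (cont_two (hc i hi)) (hφ.iter n).1.continuous

end Pool.Agent.R440.TP
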