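import Pool.Agent.R440.TP.Op

open MeasureTheory Set Finset
open scoped ENNReal ContDiff ComplexConjugate InnerProductSpace

namespace Pool.Agent.R440.TP

theorem hankel_det_ne {M : ℕ → ℂ} {n k : ℕ} (hk : ¬ Sing M n k) :
    (Matrix.of fun i j : Fin n => M (k + i + j)).det ≠ 0 := by
  intro h0
  obtain ⟨v, hv0, hv⟩ := Matrix.exists_mulVec_eq_zero_iff.2 h0
  apply hk
  obtain ⟨j, hj⟩ : ∃ j, v j ≠ 0 := by
    by_contra hn
    push Not at hn
    exact hv0 (funext hn)
  refine ⟨fun j => if h : j < n then v ⟨j, h⟩ else 0, ⟨j, j.2, ?_⟩, ?_⟩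
  · simp only [Fin.is_lt, dif_pos]
    exact hj
  · intro i hi
    have := congrFun hv ⟨i, hi⟩
    simp only [Matrix.mulVec, dotProduct, Matrix.of_apply, Pi.zero_apply] at this
    rw [Finset.sum_range, ← this]
    apply sum_congr rfl
    intro j _
    simp only [Fin.is_lt, dif_pos]
    ring

theorem exists_e {n : ℕ} {f : ℂ → ℂ} (hf : MemLp f ∞ dA) (hr : Radial f) {k : ℕ}
    (hk : ¬ Sing (Mo f) n k) : ∃ e : A2 n, ∀ u : A2 n,
      ⟪e, toep n f hf u⟫_ℂ = ∫ z, (u : Lp ℂ 2 dA) z * (conj z) ^ k ∂dA := by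
  set H : Matrix (Fin n) (Fin n) ℂ := Matrix.of fun i j : Fin n => Mo f (k + i + j) with hH
  have hdet : H.det ≠ 0 := hankel_det_ne hk
  set b : Fin n → ℂ := fun i => Mo (fun _ => 1) (k + i) with hb
  set y : Fin n → ℂ := H⁻¹.mulVec b with hy
  have hHy : H.mulVec y = b := by
    rw [hy, Matrix.mulVec_mulVec, Matrix.mul_nonsing_inv _ (isUnit_iff_ne_zero.2 hdet),
      Matrix.one_mulVec]
  have hHy2 : ∀ i : Fin n, ∑ d : Fin n, Mo f (k + i + d) * y d = Mo (fun _ => 1) (k + i) := by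
    intro i
    have := congrFun hHy i
    simpa only [Matrix.mulVec, dotProduct, hH, Matrix.of_apply] using this
  set F : Fin n → ℂ → ℂ := fun d z => conj (y d) * (z ^ k * ((‖z‖ ^ 2 : ℝ) : ℂ) ^ (d : ℕ)) with hF
  have hFc : ∀ d, Continuous (F d) := by
    intro d
    simp only [hF]
    fun_prop
  have hFp : ∀ d, IsPoly n (F d) := by
    intro d
    have e : F d = fun z => (conj (y d) * z ^ (k + d)) * (conj z) ^ (d : ℕ) := by
      ext z
      simp only [hF]
      rw [← Complex.normSq_eq_norm_sq, Complex.normSq_eq_conj_mul_self, mul_pow, pow_add]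
      ring
    rw [e]
    apply isPoly_mono d.2
    fun_prop
  have hGc : Continuous (fun z => ∑ d : Fin n, F d z) := by
    apply continuous_finsetSum
    intro d _
    exact hFc d
  refine ⟨mkA (cont_two hGc) (isPoly_sum _ _ (fun i _ => hFc i) (fun i _ => hFp i)), ?_⟩
  intro u
  have hu2 : MemLp (u : Lp ℂ 2 dA) 2 dA := Lp.memLp _
  obtain ⟨c, hc⟩ := structure_modes hu2 (mem_A2.1 u.2) k
  rw [toep_inner]
  have e1 : ∀ᵐ z ∂dA, conj (((mkA (cont_two hGc) (isPoly_sum _ _ (fun i _ => hFc i)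
      (fun i _ => hFp i)) : A2 n) : Lp ℂ 2 dA) z) * (f z * (u : Lp ℂ 2 dA) z) =
      ∑ d : Fin n, y d * (f z * (u : Lp ℂ 2 dA) z *
        ((conj z) ^ k * ((‖z‖ ^ 2 : ℝ) : ℂ) ^ (d : ℕ))) := by
    filter_upwards [mkA_coe (cont_two hGc) (isPoly_sum _ _ (fun i _ => hFc i)
      (fun i _ => hFp i))] with z hz
    rw [hz, map_sum, sum_mul]
    apply sum_congr rfl
    intro d _
    simp only [hF, map_mul, map_pow, Complex.conj_conj, Complex.conj_ofReal]
    ring
  rw [integral_congr_ae e1, integral_finsetSum]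
  · have e2 : ∀ d : Fin n, ∫ z, y d * (f z * (u : Lp ℂ 2 dA) z *
        ((conj z) ^ k * ((‖z‖ ^ 2 : ℝ) : ℂ) ^ (d : ℕ))) ∂dA =
        y d * ∑ j ∈ range n, c j * Mo f (k + d + j) := by
      intro d
      rw [integral_const_mul, pair_modes hu2 hc hf hr]
    rw [sum_congr rfl (fun d _ => e2 d)]
    have h1 := pair_modes hu2 hc (f := fun _ => (1:ℂ)) (cont_top continuous_const)
      ⟨fun _ => 1, by filter_upwards with z; rfl⟩ 0
    have e3 : ∫ z, (u : Lp ℂ 2 dA) z * (conj z) ^ k ∂dA =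
        ∑ j ∈ range n, c j * Mo (fun _ => 1) (k + 0 + j) := by
      rw [← h1]
      apply integral_congr_ae
      filter_upwards with z
      ring
    rw [e3]
    simp only [mul_sum]
    rw [sum_comm]
    apply sum_congr rfl
    intro j hj
    have := hHy2 ⟨j, mem_range.1 hj⟩
    simp only at this
    rw [add_zero, ← this, mul_sum]
    apply sum_congr rfl
    intro d _
    have : k + (d:ℕ) + j = k + j + (d:ℕ) := by ring
    rw [this]
    ring
  · intro d _
    apply Integrable.const_mul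
    have := int_test (mul_top hf hu2) ((conj_cont k).mul (nsq_cont (d:ℕ)))
    exact this

theorem pair_gk {n : ℕ} (hn : 1 ≤ n) {g : ℂ → ℂ} (hg : MemLp g ∞ dA) (k : ℕ) (h : A2 n) :
    ∫ z, ((toep n g hg h : A2 n) : Lp ℂ 2 dA) z * (conj z) ^ k ∂dA =
      ∫ z, g z * (h : Lp ℂ 2 dA) z * (conj z) ^ k ∂dA := by
  have hp : IsPoly n (fun z : ℂ => z ^ k) := by
    have := isPoly_mono (n := n) (d := 0) hn (p := fun z => z ^ k) (by fun_prop)
    simpa using this
  have hc : Continuous (fun z : ℂ => z ^ k) := by fun_prop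
  have h1 := toep_inner hg (mkA (cont_two hc) hp) h
  have h2 : ⟪mkA (cont_two hc) hp, toep n g hg h⟫_ℂ =
      ∫ z, conj (((mkA (cont_two hc) hp : A2 n) : Lp ℂ 2 dA) z) *
        ((toep n g hg h : A2 n) : Lp ℂ 2 dA) z ∂dA := inner_Lp _ _
  have e1 : ∫ z, ((toep n g hg h : A2 n) : Lp ℂ 2 dA) z * (conj z) ^ k ∂dA =
      ∫ z, conj (((mkA (cont_two hc) hp : A2 n) : Lp ℂ 2 dA) z) *
        ((toep n g hg h : A2 n) : Lp ℂ 2 dA) z ∂dA := by
    apply integral_congr_ae
    filter_upwards [mkA_coe (cont_two hc) hp] with z hz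
    rw [hz, map_pow]
    ring
  have e2 : ∫ z, g z * (h : Lp ℂ 2 dA) z * (conj z) ^ k ∂dA =
      ∫ z, conj (((mkA (cont_two hc) hp : A2 n) : Lp ℂ 2 dA) z) *
        (g z * (h : Lp ℂ 2 dA) z) ∂dA := by
    apply integral_congr_ae
    filter_upwards [mkA_coe (cont_two hc) hp] with z hz
    rw [hz, map_pow]
    ring
  rw [e1, e2, ← h1, h2]

/-- finite rank implies vanishing of determinants -/
theorem dets_zero {n : ℕ} (hn : 1 ≤ n) {f g : ℂ → ℂ} (hf : MemLp f ∞ dA) (hg : MemLp g ∞ dA)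
    (hr : Radial f)
    (hfin : FiniteDimensional ℂ (LinearMap.range (toep n f hf ∘ₗ toep n g hg))) :
    ∃ N : ℕ, ∀ k : Fin N → ℕ, (∀ i, ¬ Sing (Mo f) n (k i)) → ∀ h : Fin N → A2 n,
      Matrix.det (Matrix.of fun i j : Fin N =>
        ∫ z, g z * (h j : Lp ℂ 2 dA) z * (conj z) ^ (k i) ∂dA) = 0 := by
  set R := toep n f hf ∘ₗ toep n g hg with hR
  refine ⟨Module.finrank ℂ (LinearMap.range R) + 1, ?_⟩
  intro k hk h
  choose e he using fun i => exists_e hf hr (hk i)
  have hdep : ¬ LinearIndependent ℂ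
      (fun j => (⟨R (h j), LinearMap.mem_range_self R (h j)⟩ : LinearMap.range R)) := by
    intro hli
    have := hli.fintype_card_le_finrank
    rw [Fintype.card_fin] at this
    omega
  rw [Fintype.not_linearIndependent_iff] at hdep
  obtain ⟨c, hc, j0, hj0⟩ := hdep
  rw [← Matrix.exists_mulVec_eq_zero_iff]
  refine ⟨c, fun h0 => hj0 (congrFun h0 j0), ?_⟩
  ext i
  simp only [Matrix.mulVec, dotProduct, Matrix.of_apply, Pi.zero_apply]
  have e1 : ∀ j, ∫ z, g z * (h j : Lp ℂ 2 dA) z * (conj z) ^ (k i) ∂dA = ⟪e i, R (h j)⟫_ℂ := by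
    intro j
    rw [← pair_gk hn hg (k i) (h j), ← he i]
    rfl
  have e2 : ∑ j, c j • R (h j) = 0 := by
    have := congrArg Subtype.val hc
    simpa using this
  have e3 : ∑ j, ⟪e i, R (h j)⟫_ℂ * c j = ⟪e i, ∑ j, c j • R (h j)⟫_ℂ := by
    rw [inner_sum]
    apply sum_congr rfl
    intro j _
    rw [mul_comm]
    exact (inner_smul_right (𝕜 := ℂ) (e i) (R (h j)) (c j)).symm
  simp only [e1]
  rw [e3, e2, inner_zero_right]

end Pool.Agent.R440.TP
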