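import Pool.Agent.R440.TP.PA

open MeasureTheory Set Finset
open scoped ENNReal ContDiff ComplexConjugate InnerProductSpace

namespace Pool.Agent.R440.TP

theorem sing_det {M : ℕ → ℂ} {n k : ℕ} (hk : Sing M n k) :
    (Matrix.of fun i j : Fin n => M (k + i + j)).det = 0 := by
  obtain ⟨q, ⟨j0, hj0, hq0⟩, hq⟩ := hk
  rw [← Matrix.exists_mulVec_eq_zero_iff]
  refine ⟨fun j => q j, fun h => hq0 (congrFun h ⟨j0, hj0⟩), ?_⟩
  ext i
  simp only [Matrix.mulVec, dotProduct, Matrix.of_apply, Pi.zero_apply]
  have := hq i i.2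
  rw [Finset.sum_range] at this
  rw [← this]
  apply sum_congr rfl
  intro j _
  ring

theorem summable_shift {E : Set ℕ} (hE : Summable (fun s : E => (1:ℝ) / (s:ℕ))) (k : ℕ) :
    Summable ({s : ℕ | k + s ∈ E}.indicator (fun s : ℕ => (1:ℝ) / s)) := by
  have h1 : Summable (E.indicator (fun s : ℕ => (1:ℝ) / s)) :=
    (summable_subtype_iff_indicator (f := fun s : ℕ => (1:ℝ) / s)).1 hE
  have h2 : Summable (fun s => E.indicator (fun s : ℕ => (1:ℝ) / s) (k + s)) :=
    h1.comp_injective (add_right_injective k)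
  have h3 := h2.mul_left ((k:ℝ) + 1)
  apply Summable.of_nonneg_of_le _ _ h3
  · intro s
    apply Set.indicator_nonneg
    intro s _
    positivity
  · intro s
    by_cases hs : k + s ∈ E
    · rw [Set.indicator_of_mem (s := {s : ℕ | k + s ∈ E}) hs, Set.indicator_of_mem hs]
      rcases Nat.eq_zero_or_pos s with h0 | h0
      · subst h0
        simp only [Nat.cast_zero, div_zero]
        positivity
      · have hs0 : (0:ℝ) < s := by exact_mod_cast h0
        have hs1 : (1:ℝ) ≤ s := by exact_mod_cast h0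
        push_cast
        rw [mul_one_div, div_le_div_iff₀ hs0 (by positivity)]
        nlinarith [(Nat.cast_nonneg k : (0:ℝ) ≤ k)]
    · rw [Set.indicator_of_notMem (s := {s : ℕ | k + s ∈ E}) hs, Set.indicator_of_notMem hs,
        mul_zero]

theorem not_summable_good {E : Set ℕ} (hE : Summable (fun s : E => (1:ℝ) / (s:ℕ))) {N : ℕ}
    (k : Fin N → ℕ) :
    ¬ Summable (fun s : {s : ℕ | ∀ i, k i + s ∉ E} => (1:ℝ) / (s:ℕ)) := by
  intro h
  have h1 : Summable ({s : ℕ | ∀ i, k i + s ∉ E}.indicator (fun s : ℕ => (1:ℝ) / s)) :=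
    (summable_subtype_iff_indicator (f := fun s : ℕ => (1:ℝ) / s)).1 h
  have h2 : Summable (fun s => ∑ i, {s : ℕ | k i + s ∈ E}.indicator (fun s : ℕ => (1:ℝ) / s) s) :=
    summable_sum fun i _ => summable_shift hE (k i)
  apply Real.not_summable_one_div_natCast
  apply Summable.of_nonneg_of_le _ _ (h1.add h2)
  · intro s; positivity
  · intro s
    have hnn : ∀ i, 0 ≤ {s : ℕ | k i + s ∈ E}.indicator (fun s : ℕ => (1:ℝ) / s) s := by
      intro i
      apply Set.indicator_nonneg
      intro s _
      positivity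
    by_cases hs : ∀ i, k i + s ∉ E
    · rw [Set.indicator_of_mem (s := {s : ℕ | ∀ i, k i + s ∉ E}) hs]
      have := sum_nonneg fun i (_ : i ∈ Finset.univ) => hnn i
      linarith
    · rw [Set.indicator_of_notMem (s := {s : ℕ | ∀ i, k i + s ∉ E}) hs, zero_add]
      push Not at hs
      obtain ⟨i, hi⟩ := hs
      have h3 := single_le_sum (fun i _ => hnn i) (mem_univ i)
      rw [Set.indicator_of_mem (s := {s : ℕ | k i + s ∈ E}) hi] at h3
      exact h3

theorem dets_all {n : ℕ} (hn : 1 ≤ n) {f g : ℂ → ℂ} (hf : MemLp f ∞ dA) (hg : MemLp g ∞ dA)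
    (hr : Radial f) (hf0 : ¬ (∀ᵐ z ∂dA, f z = 0))
    (hfin : FiniteDimensional ℂ (LinearMap.range (toep n f hf ∘ₗ toep n g hg))) :
    ∃ N : ℕ, ∀ u : Fin N → ℂ → ℂ, (∀ j, Differentiable ℂ (u j)) → ∀ k : Fin N → ℕ,
      Matrix.det (Matrix.of fun i j : Fin N =>
        ∫ z, (g z * ((‖z‖ ^ 2 : ℝ) : ℂ)) * (u j z * (conj z) ^ (k i)) ∂dA) = 0 := by
  obtain ⟨N, hN⟩ := dets_zero hn hf hg hr hfin
  refine ⟨N, fun u hu k => ?_⟩
  set E : Set ℕ := {s | Sing (Mo f) n s} with hE
  have hsum : Summable (fun s : E => (1:ℝ) / (s:ℕ)) := by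
    by_contra hns
    apply hf0
    apply radial_zero hf hr (n := n) (k0 := 1)
    intro q hq
    by_contra hnq
    apply hankel_det_ne hnq
    have h1 := det_muntz (N := n) (fun i j z => f z * ((‖z‖ ^ 2 : ℝ) : ℂ) ^ ((i:ℕ) + j))
      (fun i j => int_mo hf _) E hns (by
        intro s hs
        rw [← sing_det hs]
        congr 1
        ext i j
        simp only [Matrix.of_apply, Mo]
        apply integral_congr_ae
        filter_upwards with z
        ring) q hq
    rw [← h1]
    congr 1
    ext i j
    simp only [Matrix.of_apply, Mo]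
    apply integral_congr_ae
    filter_upwards with z
    ring
  have h2 := det_muntz (N := N) (fun i j z => g z * (u j z * (conj z) ^ (k i)))
    (fun i j => by
      have h1 : Continuous (fun z => u j z * (conj z) ^ (k i)) :=
        (hu j).continuous.mul (conj_cont _)
      exact (mul_top hg (cont_two h1)).integrable (by norm_num))
    {s : ℕ | ∀ i, k i + s ∉ E} (not_summable_good hsum k) (by
      intro s hs
      have hp : ∀ j, IsPoly n (fun z : ℂ => z ^ s * u j z) := by
        intro j
        have := isPoly_mono (n := n) (d := 0) hn (p := fun z => z ^ s * u j z)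
          ((differentiable_pow s).mul (hu j))
        simpa using this
      have hc : ∀ j, Continuous (fun z : ℂ => z ^ s * u j z) := by
        intro j
        exact (continuous_pow s).mul (hu j).continuous
      rw [← hN (fun i => k i + s) hs (fun j => mkA (cont_two (hc j)) (hp j))]
      congr 1
      ext i j
      simp only [Matrix.of_apply]
      apply integral_congr_ae
      filter_upwards [mkA_coe (cont_two (hc j)) (hp j)] with z hz
      rw [hz, ← Complex.normSq_eq_norm_sq, Complex.normSq_eq_conj_mul_self, mul_pow, pow_add]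
      ring) 1 le_rfl
  rw [← h2]
  congr 1
  ext i j
  simp only [Matrix.of_apply]
  apply integral_congr_ae
  filter_upwards with z
  ring

end Pool.Agent.R440.TP
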